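import Pool.Agent.Helper68.BW.Pos

/-! # The volume cocycle on vectors over an imaginary quadratic order, decidable tests

`x = (a, b)` stands for `a + b w`, where `w ^ 2 = s w - n`, `s ^ 2 < 4 n`.
Eisenstein integers: `s = -1`, `n = 1`. Gaussian integers: `s = 0`, `n = 1`. -/

set_option autoImplicit false

open Complex ComplexConjugate

namespace Pool.Agent.Helper68.BW

/-- `a + b w` -/
abbrev QI := ℤ × ℤ

/-- vectors -/
abbrev QV := QI × QI

/-- matrices `((a, b), (c, d))` -/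
abbrev QM := (QI × QI) × (QI × QI)

/-- addition -/
def qadd (x y : QI) : QI := (x.1 + y.1, x.2 + y.2)

/-- subtraction -/
def qsub (x y : QI) : QI := (x.1 - y.1, x.2 - y.2)

/-- multiplication -/
def qmul (s n : ℤ) (x y : QI) : QI :=
  (x.1 * y.1 - n * (x.2 * y.2), x.1 * y.2 + x.2 * y.1 + s * (x.2 * y.2))

/-- conjugation -/
def qconj (s : ℤ) (x : QI) : QI := (x.1 + s * x.2, -x.2)

/-- the determinant of two vectors -/
def qdt (s n : ℤ) (v w : QV) : QI := qsub (qmul s n v.1 w.2) (qmul s n v.2 w.1)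

/-- matrix times vector -/
def qact (s n : ℤ) (g : QM) (v : QV) : QV :=
  (qadd (qmul s n g.1.1 v.1) (qmul s n g.1.2 v.2), qadd (qmul s n g.2.1 v.1) (qmul s n g.2.2 v.2))

/-- matrix times matrix -/
def qmm (s n : ℤ) (g h : QM) : QM :=
  ((qadd (qmul s n g.1.1 h.1.1) (qmul s n g.1.2 h.2.1),
    qadd (qmul s n g.1.1 h.1.2) (qmul s n g.1.2 h.2.2)),
   (qadd (qmul s n g.2.1 h.1.1) (qmul s n g.2.2 h.2.1),
    qadd (qmul s n g.2.1 h.1.2) (qmul s n g.2.2 h.2.2)))

/-- the determinant -/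
def qdet (s n : ℤ) (g : QM) : QI := qsub (qmul s n g.1.1 g.2.2) (qmul s n g.1.2 g.2.1)

/-- the generator `w` -/
noncomputable def qw (s n : ℤ) : ℂ := ⟨(s : ℝ) / 2, Real.sqrt (4 * n - s ^ 2) / 2⟩

/-- the complex number `a + b w` -/
noncomputable def toC (s n : ℤ) (x : QI) : ℂ := x.1 + x.2 * qw s n

/-- the complex vector -/
noncomputable def vC (s n : ℤ) (v : QV) : ℂ × ℂ := (toC s n v.1, toC s n v.2)

/-- the complex matrix -/
noncomputable def mC (s n : ℤ) (g : QM) : Matrix (Fin 2) (Fin 2) ℂ :=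
  !![toC s n g.1.1, toC s n g.1.2; toC s n g.2.1, toC s n g.2.2]

section

variable {s n : ℤ}

theorem qw_sq (h : s ^ 2 < 4 * n) : qw s n ^ 2 = s * qw s n - n := by
  have h1 : (0 : ℝ) ≤ 4 * n - s ^ 2 := by
    have : (s : ℝ) ^ 2 < 4 * n := by exact_mod_cast h
    linarith
  have h2 := Real.mul_self_sqrt h1
  rw [sq (qw s n)]
  refine Complex.ext ?_ ?_
  · simp only [mul_re, sub_re, qw, intCast_re, intCast_im]
    linarith
  · simp only [mul_im, sub_im, qw, intCast_re, intCast_im]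
    ring

theorem toC_add (x y : QI) : toC s n (qadd x y) = toC s n x + toC s n y := by
  simp only [toC, qadd]
  push_cast
  ring

theorem toC_sub (x y : QI) : toC s n (qsub x y) = toC s n x - toC s n y := by
  simp only [toC, qsub]
  push_cast
  ring

theorem toC_mul (h : s ^ 2 < 4 * n) (x y : QI) :
    toC s n (qmul s n x y) = toC s n x * toC s n y := by
  simp only [toC, qmul]
  push_cast
  linear_combination (-(x.2 : ℂ) * y.2) * qw_sq h

theorem toC_conj (x : QI) : toC s n (qconj s x) = conj (toC s n x) := by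
  refine Complex.ext ?_ ?_
  · simp only [toC, qconj, qw, conj_re, add_re, mul_re, intCast_re, intCast_im]
    push_cast
    ring
  · simp only [toC, qconj, qw, conj_im, add_im, mul_im, intCast_re, intCast_im]
    push_cast
    ring

theorem toC_im (x : QI) : (toC s n x).im = x.2 * (Real.sqrt (4 * n - s ^ 2) / 2) := by
  simp only [toC, qw, add_im, mul_im, intCast_re, intCast_im]
  ring

theorem toC_re (x : QI) : (toC s n x).re = x.1 + x.2 * ((s : ℝ) / 2) := by
  simp only [toC, qw, add_re, mul_re, intCast_re, intCast_im]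
  ring

theorem qsqrt_pos (h : s ^ 2 < 4 * n) : 0 < Real.sqrt (4 * n - s ^ 2) / 2 := by
  have : (s : ℝ) ^ 2 < 4 * n := by exact_mod_cast h
  have h1 := Real.sqrt_pos.2 (by linarith : (0 : ℝ) < 4 * n - s ^ 2)
  positivity

theorem toC_eq_zero (h : s ^ 2 < 4 * n) {x : QI} : toC s n x = 0 ↔ x = (0, 0) := by
  constructor
  · intro h0
    have h1 := congrArg Complex.im h0
    have h2 := congrArg Complex.re h0
    rw [toC_im, zero_im] at h1
    rw [toC_re, zero_re] at h2
    have h3 : (x.2 : ℝ) = 0 := (mul_eq_zero.1 h1).resolve_right (qsqrt_pos h).ne'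
    rw [h3, zero_mul, add_zero] at h2
    exact Prod.ext (by exact_mod_cast h2) (by exact_mod_cast h3)
  · rintro rfl
    simp [toC]

theorem toC_ne_zero (h : s ^ 2 < 4 * n) {x : QI} (hx : x ≠ (0, 0)) : toC s n x ≠ 0 :=
  fun h0 => hx ((toC_eq_zero h).1 h0)

theorem dt_vC (h : s ^ 2 < 4 * n) (v w : QV) : dt (vC s n v) (vC s n w) = toC s n (qdt s n v w) := by
  rw [qdt, toC_sub, toC_mul h, toC_mul h]
  rfl

theorem act_mC (h : s ^ 2 < 4 * n) (g : QM) (v : QV) :
    act (mC s n g) (vC s n v) = vC s n (qact s n g v) := by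
  simp only [act, mC, vC, qact, toC_add, toC_mul h, Matrix.cons_val', Matrix.cons_val_zero,
    Matrix.cons_val_one, Matrix.of_apply, Matrix.cons_val_fin_one]

theorem mC_mul (h : s ^ 2 < 4 * n) (g k : QM) :
    mC s n g * mC s n k = mC s n (qmm s n g k) := by
  simp only [mC, qmm, toC_add, toC_mul h, Matrix.mul_fin_two]

theorem det_mC (h : s ^ 2 < 4 * n) (g : QM) : (mC s n g).det = toC s n (qdet s n g) := by
  simp only [mC, qdet, toC_sub, toC_mul h, Matrix.det_fin_two_of]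

theorem vC_ne_zero (h : s ^ 2 < 4 * n) {v : QV} (hv : v ≠ ((0, 0), (0, 0))) : vC s n v ≠ 0 := by
  intro h0
  apply hv
  have h1 := congrArg Prod.fst h0
  have h2 := congrArg Prod.snd h0
  exact Prod.ext ((toC_eq_zero h).1 h1) ((toC_eq_zero h).1 h2)

/-- the two vectors are non-zero and proportional -/
def pvTest (s n : ℤ) (v w : QV) : Bool :=
  decide (v ≠ ((0, 0), (0, 0))) && decide (w ≠ ((0, 0), (0, 0))) &&
    decide (qdt s n v w = (0, 0))

theorem pv_sound (h : s ^ 2 < 4 * n) {v w : QV} (ht : pvTest s n v w = true) :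
    vC s n v ≠ 0 ∧ vC s n w ≠ 0 ∧ dt (vC s n v) (vC s n w) = 0 ∧
      ∃ r : ℂ, r ≠ 0 ∧ vC s n w = r • vC s n v := by
  simp only [pvTest, Bool.and_eq_true, decide_eq_true_eq] at ht
  obtain ⟨⟨h1, h2⟩, h3⟩ := ht
  have h4 : dt (vC s n v) (vC s n w) = 0 := by rw [dt_vC h, h3, toC_eq_zero h]
  exact ⟨vC_ne_zero h h1, vC_ne_zero h h2, h4,
    exists_smul_of_dt (vC_ne_zero h h1) (vC_ne_zero h h2) h4⟩

/-- the four entries -/
def qents (g : QM) : List QI := [g.1.1, g.1.2, g.2.1, g.2.2]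

/-- two matrices with non-zero determinants are proportional -/
def pmTest (s n : ℤ) (g k : QM) : Bool :=
  decide (qdet s n g ≠ (0, 0)) && decide (qdet s n k ≠ (0, 0)) &&
    decide (qmul s n g.1.1 k.1.2 = qmul s n g.1.2 k.1.1) &&
    decide (qmul s n g.1.1 k.2.1 = qmul s n g.2.1 k.1.1) &&
    decide (qmul s n g.1.1 k.2.2 = qmul s n g.2.2 k.1.1) &&
    decide (qmul s n g.1.2 k.2.1 = qmul s n g.2.1 k.1.2) &&
    decide (qmul s n g.1.2 k.2.2 = qmul s n g.2.2 k.1.2) &&
    decide (qmul s n g.2.1 k.2.2 = qmul s n g.2.2 k.2.1)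

theorem pm_sound (h : s ^ 2 < 4 * n) {g k : QM} (ht : pmTest s n g k = true) :
    (mC s n g).det ≠ 0 ∧ (mC s n k).det ≠ 0 ∧
      ∃ r : ℂ, r ≠ 0 ∧ mC s n g = r • mC s n k := by
  simp only [pmTest, Bool.and_eq_true, decide_eq_true_eq] at ht
  obtain ⟨⟨⟨⟨⟨⟨⟨hg, hk⟩, e1⟩, e2⟩, e3⟩, e4⟩, e5⟩, e6⟩ := ht
  have hg' : (mC s n g).det ≠ 0 := by rw [det_mC h]; exact toC_ne_zero h hg
  have hk' : (mC s n k).det ≠ 0 := by rw [det_mC h]; exact toC_ne_zero h hk
  have f1 := congrArg (toC s n) e1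
  have f2 := congrArg (toC s n) e2
  have f3 := congrArg (toC s n) e3
  have f4 := congrArg (toC s n) e4
  have f5 := congrArg (toC s n) e5
  have f6 := congrArg (toC s n) e6
  rw [toC_mul h, toC_mul h] at f1 f2 f3 f4 f5 f6
  refine ⟨hg', hk', ?_⟩
  have key : ∀ r : ℂ, mC s n g = r • mC s n k → ∃ r : ℂ, r ≠ 0 ∧ mC s n g = r • mC s n k := by
    intro r hr
    refine ⟨r, ?_, hr⟩
    rintro rfl
    rw [zero_smul] at hr
    rw [hr, Matrix.det_zero] at hg'
    exact hg' rfl
  have hsm : ∀ r : ℂ, toC s n g.1.1 = r * toC s n k.1.1 → toC s n g.1.2 = r * toC s n k.1.2 →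
      toC s n g.2.1 = r * toC s n k.2.1 → toC s n g.2.2 = r * toC s n k.2.2 →
      mC s n g = r • mC s n k := by
    intro r h1 h2 h3 h4
    simp only [mC, h1, h2, h3, h4]
    ext i j
    fin_cases i <;> fin_cases j <;> simp
  by_cases z1 : toC s n k.1.1 = 0
  · by_cases z2 : toC s n k.1.2 = 0
    · exfalso
      apply hk'
      simp only [mC, Matrix.det_fin_two_of, z1, z2]
      ring
    · refine key (toC s n g.1.2 / toC s n k.1.2) (hsm _ ?_ ?_ ?_ ?_)
      · rw [div_mul_eq_mul_div, eq_div_iff z2]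
        exact f1
      · rw [div_mul_cancel₀ _ z2]
      · rw [div_mul_eq_mul_div, eq_div_iff z2]
        exact f4.symm
      · rw [div_mul_eq_mul_div, eq_div_iff z2]
        exact f5.symm
  · refine key (toC s n g.1.1 / toC s n k.1.1) (hsm _ ?_ ?_ ?_ ?_)
    · rw [div_mul_cancel₀ _ z1]
    · rw [div_mul_eq_mul_div, eq_div_iff z1]
      exact f1.symm
    · rw [div_mul_eq_mul_div, eq_div_iff z1]
      exact f2.symm
    · rw [div_mul_eq_mul_div, eq_div_iff z1]
      exact f3.symm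

/-- `P = dt a b * dt c d` -/
def qP (s n : ℤ) (a b c d : QV) : QI := qmul s n (qdt s n a b) (qdt s n c d)

/-- `Q = dt a c * dt d b` -/
def qQ (s n : ℤ) (a b c d : QV) : QI := qmul s n (qdt s n a c) (qdt s n d b)

/-- `R = dt a d * dt b c` -/
def qR (s n : ℤ) (a b c d : QV) : QI := qmul s n (qdt s n a d) (qdt s n b c)

theorem V_eq (h : s ^ 2 < 4 * n) (a b c d : QV) :
    V (vC s n a) (vC s n b) (vC s n c) (vC s n d) =
      T (toC s n (qP s n a b c d)) (toC s n (qQ s n a b c d)) (toC s n (qR s n a b c d)) := by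
  rw [V, dt_vC h, dt_vC h, dt_vC h, dt_vC h, dt_vC h, dt_vC h, qP, qQ, qR, toC_mul h,
    toC_mul h, toC_mul h]

theorem PQR_sum (h : s ^ 2 < 4 * n) (a b c d : QV) :
    toC s n (qP s n a b c d) + toC s n (qQ s n a b c d) + toC s n (qR s n a b c d) = 0 := by
  have := plucker (vC s n a) (vC s n b) (vC s n c) (vC s n d)
  rw [dt_vC h, dt_vC h, dt_vC h, dt_vC h, dt_vC h, dt_vC h] at this
  rw [qP, qQ, qR, toC_mul h, toC_mul h, toC_mul h]
  exact this

/-- the orientation of the ideal simplex: a positive multiple of `Im (Q / P)` -/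
def qori (s n : ℤ) (a b c d : QV) : ℤ :=
  (qmul s n (qQ s n a b c d) (qconj s (qP s n a b c d))).2

theorem im_qori (h : s ^ 2 < 4 * n) (a b c d : QV) :
    (toC s n (qQ s n a b c d) * conj (toC s n (qP s n a b c d))).im =
      qori s n a b c d * (Real.sqrt (4 * n - s ^ 2) / 2) := by
  rw [← toC_conj, ← toC_mul h, toC_im, qori]

theorem V_pos_of_qori (h : s ^ 2 < 4 * n) {a b c d : QV} (ho : 0 < qori s n a b c d) :
    0 < V (vC s n a) (vC s n b) (vC s n c) (vC s n d) := by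
  rw [V_eq h]
  refine T_pos (PQR_sum h a b c d) ?_
  rw [im_qori h]
  have : (0 : ℝ) < qori s n a b c d := by exact_mod_cast ho
  exact mul_pos this (qsqrt_pos h)

theorem V_zero_of_qori (h : s ^ 2 < 4 * n) {a b c d : QV} (ho : qori s n a b c d = 0) :
    V (vC s n a) (vC s n b) (vC s n c) (vC s n d) = 0 := by
  rw [V_eq h]
  refine T_collinear (PQR_sum h a b c d) ?_
  have h1 := im_qori h a b c d
  rw [ho, Int.cast_zero, zero_mul] at h1
  rw [← conj_conj (toC s n (qP s n a b c d)), ← map_mul, conj_im, mul_comm, h1, neg_zero]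

theorem V_nonneg_of_qori (h : s ^ 2 < 4 * n) {a b c d : QV} (ho : 0 ≤ qori s n a b c d) :
    0 ≤ V (vC s n a) (vC s n b) (vC s n c) (vC s n d) := by
  rcases ho.lt_or_eq with h1 | h1
  · exact (V_pos_of_qori h h1).le
  · exact (V_zero_of_qori h h1.symm).ge

end

/-! ### Eisenstein integers: regular simplices -/

/-- the volume of the regular ideal simplex -/
noncomputable def V0 : ℝ := T 1 (qw (-1) 1) (qw (-1) 1 ^ 2)

theorem eis : ((-1 : ℤ)) ^ 2 < 4 * 1 := by norm_num

theorem V0_pos : 0 < V0 := by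
  refine T_pos ?_ ?_
  · have := qw_sq eis
    push_cast at this
    linear_combination this
  · rw [map_one, mul_one]
    exact qsqrt_pos eis

/-- `0` for degenerate simplices, `1` (`-1`) for positive (negative) regular ones -/
def vcode (a b c d : QV) : Option ℤ :=
  if qP (-1) 1 a b c d = (0, 0) ∨ qQ (-1) 1 a b c d = (0, 0) ∨ qR (-1) 1 a b c d = (0, 0) then
    some 0
  else if qQ (-1) 1 a b c d = qmul (-1) 1 (0, 1) (qP (-1) 1 a b c d) then some 1
  else if qP (-1) 1 a b c d = qmul (-1) 1 (0, 1) (qQ (-1) 1 a b c d) then some (-1)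
  else none

theorem vcode_sound {a b c d : QV} {m : ℤ} (hm : vcode a b c d = some m) :
    V (vC (-1) 1 a) (vC (-1) 1 b) (vC (-1) 1 c) (vC (-1) 1 d) = m * V0 := by
  have hw : toC (-1) 1 (0, 1) = qw (-1) 1 := by simp [toC]
  have hw2 : qw (-1) 1 ^ 2 + qw (-1) 1 + 1 = 0 := by
    have := qw_sq eis
    push_cast at this
    linear_combination this
  have hsum := PQR_sum eis a b c d
  rw [V_eq eis]
  rw [vcode] at hm
  split_ifs at hm with h1 h2 h3
  · have hm0 : m = 0 := (Option.some.inj hm).symm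
    rw [hm0, Int.cast_zero, zero_mul]
    rcases h1 with h1 | h1 | h1
    · exact T_zero1 hsum ((toC_eq_zero eis).2 h1)
    · exact T_zero2 hsum ((toC_eq_zero eis).2 h1)
    · exact T_zero3 hsum ((toC_eq_zero eis).2 h1)
  · have hm0 : m = 1 := (Option.some.inj hm).symm
    push Not at h1
    have hP := toC_ne_zero eis h1.1
    have hQ : toC (-1) 1 (qQ (-1) 1 a b c d) = toC (-1) 1 (qP (-1) 1 a b c d) * qw (-1) 1 := by
      rw [h2, toC_mul eis, hw, mul_comm]
    have hR : toC (-1) 1 (qR (-1) 1 a b c d) =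
        toC (-1) 1 (qP (-1) 1 a b c d) * qw (-1) 1 ^ 2 := by
      linear_combination hsum - hQ - toC (-1) 1 (qP (-1) 1 a b c d) * hw2
    have hV := T_smul hP 1 (qw (-1) 1) (qw (-1) 1 ^ 2)
    rw [mul_one] at hV
    rw [hQ, hR, hV, hm0, Int.cast_one, one_mul, V0]
  · have hm0 : m = -1 := (Option.some.inj hm).symm
    push Not at h1
    have hQ0 := toC_ne_zero eis h1.2.1
    have hP : toC (-1) 1 (qP (-1) 1 a b c d) = toC (-1) 1 (qQ (-1) 1 a b c d) * qw (-1) 1 := by
      rw [h3, toC_mul eis, hw, mul_comm]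
    have hR : toC (-1) 1 (qR (-1) 1 a b c d) =
        toC (-1) 1 (qQ (-1) 1 a b c d) * qw (-1) 1 ^ 2 := by
      linear_combination hsum - hP - toC (-1) 1 (qQ (-1) 1 a b c d) * hw2
    have hV := T_smul hQ0 (qw (-1) 1) 1 (qw (-1) 1 ^ 2)
    rw [mul_one] at hV
    rw [hP, hR, hV, hm0]
    have h4 : T (qw (-1) 1) 1 (qw (-1) 1 ^ 2) = -T 1 (qw (-1) 1) (qw (-1) 1 ^ 2) := by
      rw [T, T]
      have i1 : qw (-1) 1 / 1 = (1 / qw (-1) 1)⁻¹ := by rw [one_div, inv_inv, div_one]
      have i2 : 1 / qw (-1) 1 ^ 2 = (qw (-1) 1 ^ 2 / 1)⁻¹ := by rw [one_div, div_one]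
      have i3 : qw (-1) 1 ^ 2 / qw (-1) 1 = (qw (-1) 1 / qw (-1) 1 ^ 2)⁻¹ := by rw [inv_div]
      rw [i1, i2, i3, L_inv, L_inv, L_inv]
      ring
    rw [h4, V0]
    push_cast
    ring

end Pool.Agent.Helper68.BW
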