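import Pool.Agent.Helper68.BW.Main

/-! # Positivity of the volume of positively oriented ideal simplices -/

set_option autoImplicit false

open Complex Filter Topology ComplexConjugate

namespace Pool.Agent.Helper68.BW

/-- the Clausen function -/
noncomputable def cl (θ : ℝ) : ℝ := fLi (exp (θ * I))

theorem cl_continuous : Continuous cl := by
  have h1 : Continuous fun θ : ℝ => exp (θ * I) := by fun_prop
  refine fLi_continuousOn.comp_continuous h1 fun θ => ?_
  rw [mem_closedBall_zero_iff, norm_exp_ofReal_mul_I]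

theorem cl_neg (θ : ℝ) : cl (-θ) = -cl θ := by
  rw [cl, cl, ← fLi_conj]
  congr 1
  rw [← exp_conj, map_mul, conj_ofReal, conj_I]
  push_cast
  ring_nf

theorem cl_add (θ : ℝ) : cl (θ + 2 * Real.pi) = cl θ := by
  rw [cl, cl]
  congr 1
  push_cast
  rw [add_mul, exp_add, exp_two_pi_mul_I, mul_one]

theorem cl_zero : cl 0 = 0 := by
  rw [cl, ofReal_zero, zero_mul, Complex.exp_zero, fLi_one]

theorem norm_one_sub_exp (θ : ℝ) : ‖1 - exp ((2 * θ : ℝ) * I)‖ = 2 * |Real.sin θ| := by
  have h : 1 - exp ((2 * θ : ℝ) * I) = -(2 * I * (Real.sin θ : ℝ)) * exp (θ * I) := by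
    have h1 : ((Real.sin θ : ℝ) : ℂ) = (exp (-θ * I) - exp (θ * I)) * I / 2 := by
      rw [ofReal_sin, Complex.sin]
    rw [h1]
    have h2 : exp ((2 * θ : ℝ) * I) = exp (θ * I) * exp (θ * I) := by
      rw [← exp_add]
      push_cast
      ring_nf
    have h3 : exp (-θ * I) * exp (θ * I) = 1 := by
      rw [← exp_add]
      have : -(θ : ℂ) * I + θ * I = 0 := by ring
      rw [this, Complex.exp_zero]
    rw [h2]
    linear_combination (exp (-θ * I) * exp (θ * I) - exp (θ * I) * exp (θ * I)) * I_sq - h3
  rw [h, norm_mul, norm_exp_ofReal_mul_I, norm_neg, norm_mul, norm_mul, norm_I, norm_real,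
    Real.norm_eq_abs, Complex.norm_ofNat]
  ring

theorem cl_hasDerivAt {θ : ℝ} (h : Real.sin θ ≠ 0) :
    HasDerivAt (fun t => cl (2 * t)) (-2 * Real.log (2 * |Real.sin θ|)) θ := by
  have h1 : exp ((2 * θ : ℝ) * I) ≠ 1 := by
    intro h2
    have h3 := norm_one_sub_exp θ
    rw [h2, sub_self, norm_zero] at h3
    have := abs_pos.2 h
    linarith
  have h2 := fLi_hasDerivAt h1
  rw [norm_one_sub_exp] at h2
  have h3 : HasDerivAt (fun t : ℝ => 2 * t) 2 θ := by
    simpa using (hasDerivAt_id θ).const_mul 2
  have h4 := h2.comp θ h3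
  have h5 : -2 * Real.log (2 * |Real.sin θ|) = -Real.log (2 * |Real.sin θ|) * 2 := by ring
  rw [h5]
  exact h4

theorem cl_tri_pos {a b : ℝ} (ha : 0 < a) (hb : 0 < b) (hab : a + b < Real.pi) :
    0 < cl (2 * a) + cl (2 * b) - cl (2 * (a + b)) := by
  set G : ℝ → ℝ := fun t => cl (2 * t) + cl (2 * b) - cl (2 * (t + b)) with hG
  have hGc : Continuous G := by
    have := cl_continuous
    simp only [hG]
    fun_prop
  have hd : ∀ t : ℝ, 0 < t → t < Real.pi - b →
      HasDerivAt G (-2 * Real.log (2 * |Real.sin t|) + 2 * Real.log (2 * |Real.sin (t + b)|))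
        t := by
    intro t ht0 ht1
    have s1 : 0 < Real.sin t := Real.sin_pos_of_pos_of_lt_pi ht0 (by linarith)
    have s2 : 0 < Real.sin (t + b) := Real.sin_pos_of_pos_of_lt_pi (by linarith) (by linarith)
    have h1 := cl_hasDerivAt s1.ne'
    have h2 := (cl_hasDerivAt s2.ne').comp t ((hasDerivAt_id t).add_const b)
    have h3 := (h1.add_const (cl (2 * b))).sub h2
    refine h3.congr_deriv ?_
    ring
  have hG0 : G 0 = 0 := by
    simp only [hG, mul_zero, cl_zero, zero_add, sub_self]
  have hG1 : G (Real.pi - b) = 0 := by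
    have e1 : cl (2 * (Real.pi - b)) = -cl (2 * b) := by
      rw [← cl_neg, ← cl_add (-(2 * b))]
      congr 1
      ring
    have e2 : cl (2 * (Real.pi - b + b)) = 0 := by
      rw [sub_add_cancel, ← zero_add (2 * Real.pi), cl_add, cl_zero]
    simp only [hG, e1, e2]
    ring
  set c : ℝ := (Real.pi - b) / 2 with hc
  have hcpos : 0 < c := by
    rw [hc]
    linarith
  rcases le_or_gt a c with h | h
  · have hm : StrictMonoOn G (Set.Icc 0 c) := by
      refine strictMonoOn_of_deriv_pos (convex_Icc _ _) hGc.continuousOn fun t ht => ?_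
      rw [interior_Icc] at ht
      have ht1 : t < Real.pi - b := by
        have := ht.2
        linarith
      rw [(hd t ht.1 ht1).deriv]
      have s1 : 0 < Real.sin t := Real.sin_pos_of_pos_of_lt_pi ht.1 (by linarith)
      have s2 : Real.sin t < Real.sin (t + b) := by
        have e : Real.sin (t + b) - Real.sin t =
            2 * Real.sin (b / 2) * Real.cos (t + b / 2) := by
          rw [Real.sin_sub_sin]
          congr 2
          · ring_nf
          · ring_nf
        have p1 : 0 < Real.sin (b / 2) :=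
          Real.sin_pos_of_pos_of_lt_pi (by linarith) (by linarith)
        have p2 : 0 < Real.cos (t + b / 2) :=
          Real.cos_pos_of_mem_Ioo ⟨by linarith [ht.1], by linarith [ht.2]⟩
        have := mul_pos (mul_pos two_pos p1) p2
        linarith
      have s3 : 0 < Real.sin (t + b) := s1.trans s2
      rw [abs_of_pos s1, abs_of_pos s3]
      have := Real.log_lt_log (by positivity : 0 < 2 * Real.sin t)
        (by linarith : 2 * Real.sin t < 2 * Real.sin (t + b))
      linarith
    have := hm ⟨le_refl 0, hcpos.le⟩ ⟨ha.le, h⟩ ha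
    rw [hG0] at this
    exact this
  · have hm : StrictAntiOn G (Set.Icc c (Real.pi - b)) := by
      refine strictAntiOn_of_deriv_neg (convex_Icc _ _) hGc.continuousOn fun t ht => ?_
      rw [interior_Icc] at ht
      have ht0 : 0 < t := hcpos.trans ht.1
      rw [(hd t ht0 ht.2).deriv]
      have s1 : 0 < Real.sin (t + b) :=
        Real.sin_pos_of_pos_of_lt_pi (by linarith) (by linarith [ht.2])
      have s2 : Real.sin (t + b) < Real.sin t := by
        have e : Real.sin (t + b) - Real.sin t =
            2 * Real.sin (b / 2) * Real.cos (t + b / 2) := by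
          rw [Real.sin_sub_sin]
          congr 2
          · ring_nf
          · ring_nf
        have p1 : 0 < Real.sin (b / 2) :=
          Real.sin_pos_of_pos_of_lt_pi (by linarith) (by linarith)
        have p2 : Real.cos (t + b / 2) < 0 :=
          Real.cos_neg_of_pi_div_two_lt_of_lt (by linarith [ht.1]) (by linarith [ht.2])
        have := mul_neg_of_pos_of_neg (mul_pos two_pos p1) p2
        linarith
      have s3 : 0 < Real.sin t := s1.trans s2
      rw [abs_of_pos s1, abs_of_pos s3]
      have := Real.log_lt_log (by positivity : 0 < 2 * Real.sin (t + b))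
        (by linarith : 2 * Real.sin (t + b) < 2 * Real.sin t)
      linarith
    have := hm ⟨h.le, by linarith⟩ ⟨by rw [hc]; linarith, le_refl _⟩
      (by linarith : a < Real.pi - b)
    rw [hG1] at this
    exact this

theorem L_eq_cl (w : ℂ) (hw : w ≠ 0) : L w = cl (2 * arg w) := by
  rw [L, cl]
  congr 1
  have h1 : conj w = exp (conj (log w)) := by
    rw [exp_conj, exp_log hw]
  have h2 : w / conj w = exp (log w - conj (log w)) := by
    rw [exp_sub, exp_conj, exp_log hw]
  rw [h2, sub_conj, log_im]

/-- `T > 0` if the triangle is positively oriented -/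
theorem T_pos {P Q R : ℂ} (h : P + Q + R = 0) (him : 0 < (Q * conj P).im) : 0 < T P Q R := by
  have hP : P ≠ 0 := by
    rintro rfl
    simp at him
  have hQ : Q ≠ 0 := by
    rintro rfl
    simp at him
  have e0 : (P * conj Q).im = -(Q * conj P).im := by
    rw [← conj_im, map_mul, conj_conj, mul_comm]
  have hR' : R = -P - Q := by linear_combination h
  have e1 : (Q * conj R).im = -(Q * conj P).im := by
    have h2 : Q * conj R = -(Q * conj P) - Q * conj Q := by
      rw [hR', map_sub, map_neg]
      ring
    rw [h2, sub_im, neg_im, mul_conj, ofReal_im, sub_zero]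
  have e2 : (R * conj P).im = -(Q * conj P).im := by
    have h2 : R * conj P = -(Q * conj P) - P * conj P := by
      rw [hR']
      ring
    rw [h2, sub_im, neg_im, mul_conj P, ofReal_im, sub_zero]
  have hR : R ≠ 0 := by
    rintro rfl
    rw [map_zero, mul_zero, zero_im] at e1
    linarith
  have harg : ∀ {A B : ℂ}, B ≠ 0 → (A * conj B).im = -(Q * conj P).im →
      -Real.pi < arg (A / B) ∧ arg (A / B) < 0 := by
    intro A B hB hAB
    refine ⟨neg_pi_lt_arg _, ?_⟩
    rw [arg_neg_iff, im_div_eq hB, hAB]
    have : 0 < ‖B‖ := norm_pos_iff.2 hB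
    have h3 : 0 < (Q * conj P).im / ‖B‖ ^ 2 := by positivity
    rw [neg_div]
    linarith
  obtain ⟨x1, x2⟩ := harg hQ e0
  obtain ⟨y1, y2⟩ := harg hR e1
  obtain ⟨z1, z2⟩ := harg hP e2
  have hPQ : P / Q ≠ 0 := div_ne_zero hP hQ
  have hQR : Q / R ≠ 0 := div_ne_zero hQ hR
  have hRP : R / P ≠ 0 := div_ne_zero hR hP
  -- the sum of the arguments
  have hsum : arg (P / Q) + arg (Q / R) + arg (R / P) = -(2 * Real.pi) := by
    have h1 : exp ((arg (P / Q) + arg (Q / R) + arg (R / P) : ℝ) * I) = 1 := by
      have n1 := norm_mul_exp_arg_mul_I (P / Q)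
      have n2 := norm_mul_exp_arg_mul_I (Q / R)
      have n3 := norm_mul_exp_arg_mul_I (R / P)
      have h2 : (P / Q) * (Q / R) * (R / P) = 1 := by
        field_simp
      have h3 : (‖P / Q‖ : ℂ) * ‖Q / R‖ * ‖R / P‖ = 1 := by
        have : ‖P / Q‖ * ‖Q / R‖ * ‖R / P‖ = 1 := by
          rw [← norm_mul, ← norm_mul, h2, norm_one]
        exact_mod_cast this
      have h4 : exp ((arg (P / Q) + arg (Q / R) + arg (R / P) : ℝ) * I) =
          exp (arg (P / Q) * I) * exp (arg (Q / R) * I) * exp (arg (R / P) * I) := by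
        rw [← exp_add, ← exp_add]
        push_cast
        ring_nf
      rw [h4]
      calc exp (arg (P / Q) * I) * exp (arg (Q / R) * I) * exp (arg (R / P) * I)
          = ((‖P / Q‖ : ℂ) * ‖Q / R‖ * ‖R / P‖) *
            (exp (arg (P / Q) * I) * exp (arg (Q / R) * I) * exp (arg (R / P) * I)) := by
            rw [h3, one_mul]
        _ = (‖P / Q‖ * exp (arg (P / Q) * I)) * (‖Q / R‖ * exp (arg (Q / R) * I)) *
            (‖R / P‖ * exp (arg (R / P) * I)) := by ring
        _ = 1 := by rw [n1, n2, n3, h2]
    rw [exp_eq_one_iff] at h1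
    obtain ⟨n, hn⟩ := h1
    have h5 : arg (P / Q) + arg (Q / R) + arg (R / P) = n * (2 * Real.pi) := by
      have h6 : ((arg (P / Q) + arg (Q / R) + arg (R / P) : ℝ) : ℂ) * I =
          ((n * (2 * Real.pi) : ℝ) : ℂ) * I := by
        rw [hn]
        push_cast
        ring
      have h7 := mul_right_cancel₀ I_ne_zero h6
      exact_mod_cast h7
    have hpi := Real.pi_pos
    have hn1 : (n : ℝ) < 0 := by
      by_contra hcon
      push Not at hcon
      have := mul_nonneg hcon (by positivity : (0 : ℝ) ≤ 2 * Real.pi)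
      linarith
    have hn2 : (-2 : ℝ) < n := by
      by_contra hcon
      push Not at hcon
      nlinarith
    have hn3 : n = -1 := by
      have h8 : n < 0 := by exact_mod_cast hn1
      have h9 : -2 < n := by exact_mod_cast hn2
      omega
    rw [h5, hn3]
    push_cast
    ring
  have hL : ∀ w : ℂ, w ≠ 0 → L w = cl (2 * (Real.pi + arg w)) := by
    intro w hw
    rw [L_eq_cl w hw, ← cl_add]
    congr 1
    ring
  have key := cl_tri_pos (a := Real.pi + arg (Q / R)) (b := Real.pi + arg (R / P))
    (by linarith) (by linarith) (by linarith)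
  have hlast : L (P / Q) = -cl (2 * (Real.pi + arg (Q / R) + (Real.pi + arg (R / P)))) := by
    have h10 : arg (P / Q) = -(2 * Real.pi) - arg (Q / R) - arg (R / P) := by linarith
    rw [L_eq_cl _ hPQ, ← cl_neg, h10]
    congr 1
    ring
  rw [T, hlast, hL _ hQR, hL _ hRP]
  linarith

/-- the volume is positive for positively oriented simplices -/
theorem V_pos {a b c d : ℂ × ℂ}
    (h : 0 < (dt a c * dt d b * conj (dt a b * dt c d)).im) : 0 < V a b c d :=
  T_pos (plucker a b c d) h

end Pool.Agent.Helper68.BW
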