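import Mathlib

/-! # The Clausen function and its derivative -/

set_option autoImplicit false

open Complex Filter Topology ComplexConjugate

namespace Pool.Agent.Helper68.BW

/-- the imaginary part of the dilogarithm on the closed unit disc -/
noncomputable def fLi (u : ℂ) : ℝ := ∑' n : ℕ, (u ^ n).im / (n : ℝ) ^ 2

theorem fLi_term_le {u : ℂ} (hu : ‖u‖ ≤ 1) (n : ℕ) :
    ‖(u ^ n).im / (n : ℝ) ^ 2‖ ≤ 1 / (n : ℝ) ^ 2 := by
  rw [norm_div, Real.norm_eq_abs, Real.norm_eq_abs, abs_of_nonneg (sq_nonneg (n : ℝ))]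
  gcongr
  refine (abs_im_le_norm _).trans ?_
  rw [norm_pow]
  exact pow_le_one₀ (norm_nonneg _) hu

theorem fLi_summable {u : ℂ} (hu : ‖u‖ ≤ 1) :
    Summable fun n : ℕ => (u ^ n).im / (n : ℝ) ^ 2 :=
  Summable.of_norm_bounded hasSum_zeta_two.summable (fLi_term_le hu)

theorem fLi_abs_le {u : ℂ} (hu : ‖u‖ ≤ 1) : |fLi u| ≤ 2 := by
  have h1 : ‖fLi u‖ ≤ Real.pi ^ 2 / 6 :=
    tsum_of_norm_bounded hasSum_zeta_two (fLi_term_le hu)
  have h2 := Real.pi_lt_d2
  have h3 := Real.pi_pos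
  rw [← Real.norm_eq_abs]
  nlinarith

theorem fLi_continuousOn : ContinuousOn fLi (Metric.closedBall 0 1) := by
  refine continuousOn_tsum (u := fun n : ℕ => 1 / (n : ℝ) ^ 2) (fun n => ?_)
    hasSum_zeta_two.summable fun n u hu => ?_
  · exact ((continuous_im.comp (continuous_pow n)).div_const _).continuousOn
  · exact fLi_term_le (by simpa using hu) n

theorem fLi_conj (u : ℂ) : fLi (conj u) = -fLi u := by
  rw [fLi, fLi, ← tsum_neg]
  refine tsum_congr fun n => ?_
  rw [← map_pow, conj_im, neg_div]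

theorem fLi_one : fLi 1 = 0 := by
  rw [fLi]
  simp

theorem fLi_zero : fLi 0 = 0 := by
  rw [fLi]
  have h : ∀ n : ℕ, (((0 : ℂ) ^ n).im / (n : ℝ) ^ 2) = 0 := by
    intro n
    cases n with
    | zero => simp
    | succ n => simp
  simp [h]

theorem fLi_hasDerivAt_lt {r : ℝ} (hr0 : 0 ≤ r) (hr : r < 1) (θ : ℝ) :
    HasDerivAt (fun θ : ℝ => fLi (r * exp (θ * I))) (-Real.log ‖1 - r * exp (θ * I)‖) θ := by
  have hterm : ∀ (n : ℕ) (y : ℝ), HasDerivAt
      (fun y : ℝ => ((r * exp (y * I)) ^ n).im / (n : ℝ) ^ 2)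
      (((r * exp (y * I)) ^ n).re / (n : ℝ)) y := by
    intro n y
    have e1 : ∀ y : ℝ, ((r : ℂ) * exp (y * I)) ^ n =
        (r ^ n * Real.cos (n * y) : ℝ) + (r ^ n * Real.sin (n * y) : ℝ) * I := by
      intro y
      rw [mul_pow, ← exp_nat_mul]
      have : (n : ℂ) * (y * I) = ((n * y : ℝ) : ℂ) * I := by push_cast; ring
      rw [this, exp_mul_I, ← ofReal_cos, ← ofReal_sin]
      push_cast
      ring
    have e2 : ∀ y : ℝ, (((r : ℂ) * exp (y * I)) ^ n).im = r ^ n * Real.sin (n * y) := by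
      intro y
      rw [e1 y, add_im, ofReal_im, mul_I_im, ofReal_re, zero_add]
    have e3 : ∀ y : ℝ, (((r : ℂ) * exp (y * I)) ^ n).re = r ^ n * Real.cos (n * y) := by
      intro y
      rw [e1 y, add_re, ofReal_re, mul_I_re, ofReal_im, neg_zero, add_zero]
    simp only [e2, e3]
    have h1 : HasDerivAt (fun y : ℝ => (n : ℝ) * y) (n : ℝ) y := by
      simpa using (hasDerivAt_id y).const_mul (n : ℝ)
    have h2 : HasDerivAt (fun y : ℝ => r ^ n * Real.sin (n * y) / (n : ℝ) ^ 2)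
        (r ^ n * (Real.cos (n * y) * n) / (n : ℝ) ^ 2) y :=
      (h1.sin.const_mul (r ^ n)).div_const _
    have e4 : r ^ n * (Real.cos (n * y) * n) / (n : ℝ) ^ 2 = r ^ n * Real.cos (n * y) / n := by
      rcases Nat.eq_zero_or_pos n with h | h
      · subst h
        simp
      · have : (n : ℝ) ≠ 0 := by positivity
        field_simp
    rw [← e4]
    exact h2
  have hsum := hasDerivAt_tsum (𝕜 := ℝ) (u := fun n : ℕ => r ^ n)
    (g := fun (n : ℕ) (y : ℝ) => ((r * exp (y * I)) ^ n).im / (n : ℝ) ^ 2)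
    (g' := fun (n : ℕ) (y : ℝ) => ((r * exp (y * I)) ^ n).re / (n : ℝ))
    (y₀ := 0) (summable_geometric_of_lt_one hr0 hr) hterm ?_ ?_ θ
  · have hz : ‖(r : ℂ) * exp (θ * I)‖ < 1 := by
      rw [norm_mul, norm_exp_ofReal_mul_I, mul_one, norm_real, Real.norm_eq_abs,
        abs_of_nonneg hr0]
      exact hr
    have h1 := Complex.hasSum_taylorSeries_neg_log hz
    have h2 := (hasSum_re h1).tsum_eq
    have h3 : ∀ n : ℕ, (((r : ℂ) * exp (θ * I)) ^ n / (n : ℂ)).re =
        (((r : ℂ) * exp (θ * I)) ^ n).re / (n : ℝ) := by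
      intro n
      rw [← ofReal_natCast, div_ofReal_re]
    simp only [h3] at h2
    have h4 : (-log (1 - (r : ℂ) * exp (θ * I))).re =
        -Real.log ‖1 - (r : ℂ) * exp (θ * I)‖ := by
      rw [neg_re, log_re]
    rw [h4] at h2
    rw [← h2]
    exact hsum
  · intro n y
    have h1 : ‖(((r : ℂ) * exp (y * I)) ^ n).re‖ ≤ r ^ n := by
      rw [Real.norm_eq_abs]
      refine (abs_re_le_norm _).trans ?_
      rw [norm_pow, norm_mul, norm_exp_ofReal_mul_I, mul_one, norm_real, Real.norm_eq_abs,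
        abs_of_nonneg hr0]
    have h2 : (0 : ℝ) ≤ r ^ n := by positivity
    rw [norm_div]
    rcases Nat.eq_zero_or_pos n with h | h
    · subst h
      simp
    · have h3 : (1 : ℝ) ≤ ‖(n : ℝ)‖ := by
        rw [Real.norm_eq_abs, Nat.abs_cast]
        exact_mod_cast h
      exact (div_le_self (norm_nonneg _) h3).trans h1
  · have h5 : ‖(r : ℂ) * exp ((0 : ℝ) * I)‖ ≤ 1 := by
      rw [norm_mul, norm_exp_ofReal_mul_I, mul_one, norm_real, Real.norm_eq_abs,
        abs_of_nonneg hr0]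
      exact hr.le
    exact fLi_summable h5

theorem fLi_hasDerivAt {θ : ℝ} (hθ : exp (θ * I) ≠ 1) :
    HasDerivAt (fun θ : ℝ => fLi (exp (θ * I))) (-Real.log ‖1 - exp (θ * I)‖) θ := by
  set s : Set ℝ := {θ | exp (θ * I) ≠ 1} with hs
  have hcont : Continuous fun θ : ℝ => exp (θ * I) := by fun_prop
  have hso : IsOpen s := isOpen_ne_fun hcont continuous_const
  refine hasDerivAt_of_tendstoLocallyUniformlyOn (l := 𝓝[<] (1 : ℝ)) (s := s)
    (f := fun (r : ℝ) (θ : ℝ) => fLi (r * exp (θ * I)))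
    (f' := fun (r : ℝ) (θ : ℝ) => -Real.log ‖1 - r * exp (θ * I)‖)
    (g' := fun θ : ℝ => -Real.log ‖1 - exp (θ * I)‖) hso ?_ ?_ ?_ hθ
  · rw [Metric.tendstoLocallyUniformlyOn_iff]
    intro ε hε x hx
    have hx1 : ‖1 - ((1 : ℝ) : ℂ) * exp (x * I)‖ ≠ 0 := by
      rw [ofReal_one, one_mul, norm_ne_zero_iff]
      exact sub_ne_zero.2 fun h => hx h.symm
    have hF : ContinuousAt (fun p : ℝ × ℝ => -Real.log ‖1 - (p.1 : ℂ) * exp (p.2 * I)‖)
        ((1 : ℝ), x) := by
      refine ContinuousAt.neg (ContinuousAt.log ?_ hx1)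
      fun_prop
    have h1 := Metric.continuousAt_iff'.1 hF (ε / 2) (by positivity)
    rw [nhds_prod_eq, Filter.eventually_prod_iff] at h1
    obtain ⟨p, hp, q, hq, hpq⟩ := h1
    refine ⟨{y | q y}, mem_nhdsWithin_of_mem_nhds hq, ?_⟩
    have hp1 : p 1 := hp.self_of_nhds
    filter_upwards [nhdsWithin_le_nhds hp] with r hr y hy
    have h2 := hpq hr hy
    have h3 := hpq hp1 hy
    have h4 : -Real.log ‖1 - ((1 : ℝ) : ℂ) * exp (y * I)‖ = -Real.log ‖1 - exp (y * I)‖ := by
      rw [ofReal_one, one_mul]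
    simp only at h2 h3
    rw [h4] at h3
    rw [dist_comm] at h2
    have h5 := dist_triangle_right (-Real.log ‖1 - exp (y * I)‖)
      (-Real.log ‖1 - (r : ℂ) * exp (y * I)‖)
      (-Real.log ‖1 - ((1 : ℝ) : ℂ) * exp (x * I)‖)
    rw [dist_comm] at h2
    linarith
  · have h0 : ∀ᶠ r : ℝ in 𝓝[<] (1 : ℝ), 0 ≤ r ∧ r < 1 := by
      have h1 : ∀ᶠ r : ℝ in 𝓝[<] (1 : ℝ), 0 < r :=
        nhdsWithin_le_nhds (lt_mem_nhds one_pos)
      filter_upwards [h1, self_mem_nhdsWithin] with r hr hr2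
      exact ⟨hr.le, hr2⟩
    filter_upwards [h0] with r hr θ _
    exact fLi_hasDerivAt_lt hr.1 hr.2 θ
  · intro θ _
    have h1 : Tendsto (fun r : ℝ => (r : ℂ) * exp (θ * I)) (𝓝[<] 1)
        (𝓝[Metric.closedBall 0 1] (exp (θ * I))) := by
      rw [tendsto_nhdsWithin_iff]
      constructor
      · have h2 : Tendsto (fun r : ℝ => (r : ℂ) * exp (θ * I)) (𝓝 1)
            (𝓝 (((1 : ℝ) : ℂ) * exp (θ * I))) := by
          apply Continuous.tendsto
          fun_prop
        rw [ofReal_one, one_mul] at h2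
        exact h2.mono_left nhdsWithin_le_nhds
      · have h1 : ∀ᶠ r : ℝ in 𝓝[<] (1 : ℝ), 0 < r :=
          nhdsWithin_le_nhds (lt_mem_nhds one_pos)
        filter_upwards [h1, self_mem_nhdsWithin] with r hr hr2
        rw [mem_closedBall_zero_iff, norm_mul, norm_exp_ofReal_mul_I, mul_one, norm_real,
          Real.norm_eq_abs, abs_of_pos hr]
        exact le_of_lt hr2
    have h3 : ContinuousWithinAt fLi (Metric.closedBall 0 1) (exp (θ * I)) := by
      refine fLi_continuousOn _ ?_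
      rw [mem_closedBall_zero_iff, norm_exp_ofReal_mul_I]
    exact h3.tendsto.comp h1

/-- `L w` = Clausen function at `2 arg w` -/
noncomputable def L (w : ℂ) : ℝ := fLi (w / conj w)

theorem norm_div_conj_le (w : ℂ) : ‖w / conj w‖ ≤ 1 := by
  rw [norm_div, norm_conj]
  exact div_self_le_one _

theorem L_abs_le (w : ℂ) : |L w| ≤ 2 := fLi_abs_le (norm_div_conj_le w)

theorem L_zero : L 0 = 0 := by
  rw [L, zero_div, fLi_zero]

theorem L_neg (w : ℂ) : L (-w) = L w := by
  rw [L, L, map_neg, neg_div_neg_eq]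

theorem L_inv (w : ℂ) : L w⁻¹ = -L w := by
  rw [L, L, ← fLi_conj]
  congr 1
  rw [map_inv₀, map_div₀, conj_conj, div_eq_mul_inv, div_eq_mul_inv, inv_inv, mul_comm]

theorem L_conj (w : ℂ) : L (conj w) = -L w := by
  rw [L, L, ← fLi_conj]
  congr 1
  rw [map_div₀, conj_conj]

theorem L_real_mul {r : ℝ} (hr : r ≠ 0) (w : ℂ) : L (r * w) = L w := by
  rw [L, L, map_mul, conj_ofReal, mul_div_mul_left _ _ (ofReal_ne_zero.2 hr)]

theorem L_one : L 1 = 0 := by
  rw [L]
  simp [fLi_one]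

theorem L_of_real (r : ℝ) : L r = 0 := by
  rcases eq_or_ne r 0 with h | h
  · rw [h, ofReal_zero, L_zero]
  · have := L_real_mul h 1
    rw [mul_one, L_one] at this
    exact this

theorem L_continuousAt {w : ℂ} (hw : w ≠ 0) : ContinuousAt L w := by
  have h1 : ContinuousAt (fun w : ℂ => w / conj w) w := by
    refine ContinuousAt.div continuousAt_id continuous_conj.continuousAt ?_
    exact (map_ne_zero _).2 hw
  have h2 : ContinuousWithinAt fLi (Metric.closedBall 0 1) (w / conj w) := by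
    refine fLi_continuousOn _ ?_
    rw [mem_closedBall_zero_iff]
    exact norm_div_conj_le w
  refine h2.tendsto.comp ?_
  rw [tendsto_nhdsWithin_iff]
  exact ⟨h1.tendsto, Eventually.of_forall fun w => by
    rw [mem_closedBall_zero_iff]; exact norm_div_conj_le w⟩

theorem L_hasDerivAt {w : ℝ → ℂ} {w' : ℂ} {t : ℝ} (hw : HasDerivAt w w' t)
    (hne : w t ≠ conj (w t)) :
    HasDerivAt (fun t => L (w t))
      (-2 * Real.log ‖1 - w t / conj (w t)‖ * (w' / w t).im) t := by
  have h0 : w t ≠ 0 := by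
    intro h
    rw [h, map_zero] at hne
    exact hne rfl
  set θ₀ : ℝ := 2 * arg (w t) with hθ₀
  have hpol : ∀ z : ℂ, z ≠ 0 → z / conj z = exp ((2 * (log z).im : ℝ) * I) := by
    intro z hz
    have h1 : conj z = exp (conj (log z)) := by
      rw [exp_conj, exp_log hz]
    have h2 : z / conj z = exp (log z - conj (log z)) := by
      rw [exp_sub, exp_conj, exp_log hz]
    rw [h2]
    congr 1
    rw [sub_conj]
  have hθ : exp (θ₀ * I) = w t / conj (w t) := by
    rw [hpol _ h0, log_im]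
  set q : ℝ → ℂ := fun s => w s / w t with hq
  have hq1 : q t = 1 := div_self h0
  have hqd : HasDerivAt q (w' / w t) t := hw.div_const _
  set ψ : ℝ → ℝ := fun s => θ₀ + 2 * (log (q s)).im with hψ
  have hψt : ψ t = θ₀ := by
    simp only [hψ, hq1, log_one, zero_im, mul_zero, add_zero]
  have hψd : HasDerivAt ψ (2 * (w' / w t).im) t := by
    have h1 : HasDerivAt (fun s => log (q s)) (w' / w t / q t) t := by
      refine HasDerivAt.clog_real hqd ?_
      rw [hq1]
      exact one_mem_slitPlane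
    rw [hq1, div_one] at h1
    have h2 : HasDerivAt (fun s => (log (q s)).im) (w' / w t).im t := by
      have := (imCLM.hasFDerivAt.comp_hasDerivAt t h1)
      exact this
    exact (h2.const_mul 2).const_add θ₀
  have hev : (fun s => L (w s)) =ᶠ[𝓝 t] fun s => fLi (exp (ψ s * I)) := by
    have h1 : ∀ᶠ s in 𝓝 t, q s ≠ 0 := by
      have : ContinuousAt q t := hqd.continuousAt
      exact this.eventually_ne (by rw [hq1]; exact one_ne_zero)
    filter_upwards [h1] with s hs
    have h2 : w s = w t * q s := by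
      rw [hq]
      field_simp
    have h3 : w s / conj (w s) = (w t / conj (w t)) * (q s / conj (q s)) := by
      rw [h2, map_mul, mul_div_mul_comm]
    rw [L, h3, ← hθ, hpol _ hs, ← exp_add]
    congr 2
    simp only [hψ]
    push_cast
    ring
  have hne' : exp (ψ t * I) ≠ 1 := by
    rw [hψt, hθ]
    intro h
    have h1 : conj (w t) ≠ 0 := (map_ne_zero _).2 h0
    rw [div_eq_one_iff_eq h1] at h
    exact hne h
  have h4 := (fLi_hasDerivAt hne').comp t hψd
  have h5 : HasDerivAt (fun s => fLi (exp (ψ s * I)))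
      (-Real.log ‖1 - exp (ψ t * I)‖ * (2 * (w' / w t).im)) t := h4
  rw [hψt, hθ] at h5
  have h6 := h5.congr_of_eventuallyEq hev
  have h7 : -2 * Real.log ‖1 - w t / conj (w t)‖ * (w' / w t).im =
      -Real.log ‖1 - w t / conj (w t)‖ * (2 * (w' / w t).im) := by ring
  rw [h7]
  exact h6

end Pool.Agent.Helper68.BW
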