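import Pool.Agent.Helper68.BW.Tri

/-! # The volume cocycle on the non-zero vectors of `ℂ²`: invariance, five-term relation -/

set_option autoImplicit false

open Complex Filter Topology ComplexConjugate

namespace Pool.Agent.Helper68.BW

/-- the determinant of two vectors of `ℂ²` -/
def dt (a b : ℂ × ℂ) : ℂ := a.1 * b.2 - a.2 * b.1

/-- the signed volume of the ideal simplex of hyperbolic `3`-space with the ideal vertices
`[a], [b], [c], [d]` (points of the projective line) -/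
noncomputable def V (a b c d : ℂ × ℂ) : ℝ :=
  T (dt a b * dt c d) (dt a c * dt d b) (dt a d * dt b c)

theorem dt_swap (a b : ℂ × ℂ) : dt b a = -dt a b := by
  rw [dt, dt]
  ring

theorem dt_self (a : ℂ × ℂ) : dt a a = 0 := by
  rw [dt]
  ring

theorem plucker (a b c d : ℂ × ℂ) :
    dt a b * dt c d + dt a c * dt d b + dt a d * dt b c = 0 := by
  simp only [dt]
  ring

theorem V_abs_le (a b c d : ℂ × ℂ) : |V a b c d| ≤ 3 := T_abs_le _ _ _

/-- the action of a matrix -/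
def act (g : Matrix (Fin 2) (Fin 2) ℂ) (a : ℂ × ℂ) : ℂ × ℂ :=
  (g 0 0 * a.1 + g 0 1 * a.2, g 1 0 * a.1 + g 1 1 * a.2)

theorem dt_act (g : Matrix (Fin 2) (Fin 2) ℂ) (a b : ℂ × ℂ) :
    dt (act g a) (act g b) = g.det * dt a b := by
  simp only [dt, act, Matrix.det_fin_two]
  ring

theorem V_act {g : Matrix (Fin 2) (Fin 2) ℂ} (hg : g.det ≠ 0) (a b c d : ℂ × ℂ) :
    V (act g a) (act g b) (act g c) (act g d) = V a b c d := by
  have h2 : g.det ^ 2 ≠ 0 := pow_ne_zero 2 hg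
  rw [V, V, ← T_smul h2 (dt a b * dt c d) (dt a c * dt d b) (dt a d * dt b c)]
  simp only [dt_act]
  congr 1 <;> ring

/-- complex conjugation -/
def cj (a : ℂ × ℂ) : ℂ × ℂ := (conj a.1, conj a.2)

theorem dt_cj (a b : ℂ × ℂ) : dt (cj a) (cj b) = conj (dt a b) := by
  simp only [dt, cj, map_sub, map_mul]

theorem V_cj (a b c d : ℂ × ℂ) : V (cj a) (cj b) (cj c) (cj d) = -V a b c d := by
  rw [V, V, ← T_conj (dt a b * dt c d) (dt a c * dt d b) (dt a d * dt b c)]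
  simp only [dt_cj, map_mul]

theorem dt_smul_left (c : ℂ) (a b : ℂ × ℂ) : dt (c • a) b = c * dt a b := by
  simp only [dt, Prod.smul_fst, Prod.smul_snd, smul_eq_mul]
  ring

theorem dt_smul_right (c : ℂ) (a b : ℂ × ℂ) : dt a (c • b) = c * dt a b := by
  simp only [dt, Prod.smul_fst, Prod.smul_snd, smul_eq_mul]
  ring

theorem V_smul0 {r : ℂ} (hr : r ≠ 0) (a b c d : ℂ × ℂ) : V (r • a) b c d = V a b c d := by
  rw [V, V, ← T_smul hr (dt a b * dt c d) (dt a c * dt d b) (dt a d * dt b c)]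
  simp only [dt_smul_left]
  congr 1 <;> ring

theorem V_smul1 {r : ℂ} (hr : r ≠ 0) (a b c d : ℂ × ℂ) : V a (r • b) c d = V a b c d := by
  rw [V, V, ← T_smul hr (dt a b * dt c d) (dt a c * dt d b) (dt a d * dt b c)]
  simp only [dt_smul_left, dt_smul_right]
  congr 1 <;> ring

theorem V_smul2 {r : ℂ} (hr : r ≠ 0) (a b c d : ℂ × ℂ) : V a b (r • c) d = V a b c d := by
  rw [V, V, ← T_smul hr (dt a b * dt c d) (dt a c * dt d b) (dt a d * dt b c)]
  simp only [dt_smul_left, dt_smul_right]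
  congr 1 <;> ring

theorem V_smul3 {r : ℂ} (hr : r ≠ 0) (a b c d : ℂ × ℂ) : V a b c (r • d) = V a b c d := by
  rw [V, V, ← T_smul hr (dt a b * dt c d) (dt a c * dt d b) (dt a d * dt b c)]
  simp only [dt_smul_left, dt_smul_right]
  congr 1 <;> ring

theorem V_swap01 (a b c d : ℂ × ℂ) : V b a c d = -V a b c d := by
  rw [V, V, ← T_swap (dt a b * dt c d) (dt a c * dt d b) (dt a d * dt b c)]
  congr 1
  · rw [dt_swap a b]
    ring
  · rw [dt_swap d a, dt_swap c b]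
    ring
  · rw [dt_swap d b, dt_swap c a]
    ring

theorem V_cyc (a b c d : ℂ × ℂ) : V a c d b = V a b c d := by
  rw [V, V, ← T_cyc (dt a b * dt c d)]

theorem V_swap23 (a b c d : ℂ × ℂ) : V a b d c = -V a b c d := by
  rw [V, V, ← T_swap (dt a b * dt c d) (dt a c * dt d b) (dt a d * dt b c)]
  congr 1
  · rw [dt_swap c d]
    ring
  · rw [dt_swap b c]
    ring
  · rw [dt_swap d b]
    ring

theorem V_swap12 (a b c d : ℂ × ℂ) : V a c b d = -V a b c d := by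
  rw [← V_swap23 a b c d, ← V_cyc a b d c, ← V_cyc a d c b]

theorem V_zero01 {a b : ℂ × ℂ} (c d : ℂ × ℂ) (h : dt a b = 0) : V a b c d = 0 :=
  T_zero1 (plucker a b c d) (by rw [h, zero_mul])

theorem V_zero02 {a c : ℂ × ℂ} (b d : ℂ × ℂ) (h : dt a c = 0) : V a b c d = 0 :=
  T_zero2 (plucker a b c d) (by rw [h, zero_mul])

theorem V_zero03 {a d : ℂ × ℂ} (b c : ℂ × ℂ) (h : dt a d = 0) : V a b c d = 0 :=
  T_zero3 (plucker a b c d) (by rw [h, zero_mul])

theorem V_zero12 {b c : ℂ × ℂ} (a d : ℂ × ℂ) (h : dt b c = 0) : V a b c d = 0 :=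
  T_zero3 (plucker a b c d) (by rw [h, mul_zero])

theorem V_zero13 {b d : ℂ × ℂ} (a c : ℂ × ℂ) (h : dt b d = 0) : V a b c d = 0 :=
  T_zero2 (plucker a b c d) (by rw [dt_swap b d, h, neg_zero, mul_zero])

theorem V_zero23 {c d : ℂ × ℂ} (a b : ℂ × ℂ) (h : dt c d = 0) : V a b c d = 0 :=
  T_zero1 (plucker a b c d) (by rw [h, mul_zero])

theorem exists_smul_of_dt {a b : ℂ × ℂ} (ha : a ≠ 0) (hb : b ≠ 0) (h : dt a b = 0) :
    ∃ r : ℂ, r ≠ 0 ∧ b = r • a := by
  obtain ⟨a1, a2⟩ := a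
  obtain ⟨b1, b2⟩ := b
  simp only [dt] at h
  have key : ∀ r : ℂ, (b1, b2) = r • (a1, a2) → ∃ r : ℂ, r ≠ 0 ∧ (b1, b2) = r • (a1, a2) := by
    intro r hr
    refine ⟨r, ?_, hr⟩
    rintro rfl
    rw [zero_smul] at hr
    exact hb hr
  by_cases h1 : a1 = 0
  · have h2 : a2 ≠ 0 := by
      rintro rfl
      exact ha (by rw [h1]; rfl)
    refine key (b2 / a2) ?_
    have h3 : b1 = 0 := by
      have : a2 * b1 = 0 := by rw [h1] at h; linear_combination -h
      exact (mul_eq_zero.1 this).resolve_left h2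
    refine Prod.ext ?_ ?_
    · simp [h1, h3]
    · simp [h2]
  · refine key (b1 / a1) (Prod.ext ?_ ?_)
    · simp [h1]
    · simp only [Prod.smul_mk, smul_eq_mul]
      field_simp
      linear_combination h

theorem T_continuousAt {P Q R : ℝ → ℂ} {t : ℝ} (hP : ContinuousAt P t)
    (hQ : ContinuousAt Q t) (hR : ContinuousAt R t) (hP0 : P t ≠ 0) (hQ0 : Q t ≠ 0)
    (hR0 : R t ≠ 0) : ContinuousAt (fun s => T (P s) (Q s) (R s)) t := by
  have h1 : ContinuousAt (fun s => L (P s / Q s)) t :=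
    (L_continuousAt (div_ne_zero hP0 hQ0)).comp (f := fun s => P s / Q s) (hP.div hQ hQ0)
  have h2 : ContinuousAt (fun s => L (Q s / R s)) t :=
    (L_continuousAt (div_ne_zero hQ0 hR0)).comp (f := fun s => Q s / R s) (hQ.div hR hR0)
  have h3 : ContinuousAt (fun s => L (R s / P s)) t :=
    (L_continuousAt (div_ne_zero hR0 hP0)).comp (f := fun s => R s / P s) (hR.div hP hP0)
  exact ((h1.add h2).add h3).div_const 2

/-- a direction which avoids three points -/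
theorem exists_dir (z : Fin 3 → ℂ) (hz : ∀ j, z j ≠ 0) :
    ∃ m : ℂ, m ≠ 0 ∧ ∀ j, ∀ t : ℝ, 0 ≤ t → t ≤ 1 → (1 - t) * z j + t * m ≠ 0 := by
  obtain ⟨s, hs⟩ := Infinite.exists_notMem_finset
    (Finset.univ.image fun j => (z j).im / (z j).re)
  refine ⟨1 + s * I, ?_, ?_⟩
  · intro h
    have := congrArg Complex.re h
    simp at this
  · intro j t ht0 ht1 h
    have hre := congrArg Complex.re h
    have him := congrArg Complex.im h
    simp only [add_re, mul_re, sub_re, one_re, ofReal_re, sub_im, one_im, ofReal_im, sub_self,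
      zero_mul, sub_zero, I_re, mul_zero, I_im, mul_one, add_zero, zero_re] at hre
    simp only [add_im, mul_im, sub_re, one_re, ofReal_re, sub_im, one_im, ofReal_im, sub_self,
      zero_mul, add_zero, I_re, mul_zero, I_im, mul_one, zero_add, zero_im, add_re,
      mul_re] at him
    have ht : t ≠ 0 := by
      rintro rfl
      apply hz j
      refine Complex.ext ?_ ?_
      · rw [zero_re]
        linarith
      · rw [zero_im]
        linarith
    have hzr : (z j).re ≠ 0 := by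
      intro h0
      rw [h0] at hre
      apply ht
      linarith
    refine hs (Finset.mem_image.2 ⟨j, Finset.mem_univ _, ?_⟩)
    have e : t * (s * (z j).re - (z j).im) = 0 := by
      have e1 : t = -((1 - t) * (z j).re) := by linarith
      have e2 : t * s = -((1 - t) * (z j).im) := by linarith
      calc t * (s * (z j).re - (z j).im) = (t * s) * (z j).re - t * (z j).im := by ring
        _ = -((1 - t) * (z j).im) * (z j).re - -((1 - t) * (z j).re) * (z j).im := by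
            rw [e2, ← e1]
        _ = 0 := by ring
    have e3 : s * (z j).re - (z j).im = 0 := (mul_eq_zero.1 e).resolve_left ht
    rw [div_eq_iff hzr]
    linarith

theorem T_path2 (u u' v v' w w' c1 c2 c3 : ℂ) (hc1 : c1 ≠ 0) (hc2 : c2 ≠ 0) (hc3 : c3 ≠ 0)
    (h0 : u * c1 + v * c2 + w * c3 = 0) (h1 : u' * c1 + v' * c2 + w' * c3 = 0) :
    ∃ s : Set ℝ, s.Finite ∧ ∀ t ∉ s, u + t * u' ≠ 0 → v + t * v' ≠ 0 → w + t * w' ≠ 0 →
      HasDerivAt (fun t : ℝ => T ((u + t * u') * c1) ((v + t * v') * c2) ((w + t * w') * c3))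
        (Df (Real.log ‖u + t * u'‖ + Real.log ‖c1‖) (Real.log ‖v + t * v'‖ + Real.log ‖c2‖)
          (Real.log ‖w + t * w'‖ + Real.log ‖c3‖)
          (u' / (u + t * u')).im (v' / (v + t * v')).im (w' / (w + t * w')).im) t := by
  obtain ⟨s, hs, hs2⟩ := T_path (u * c1) (u' * c1) (v * c2) (v' * c2) (w * c3) (w' * c3) h0 h1
  have e : ∀ (t : ℝ) (u u' c : ℂ), u * c + t * (u' * c) = (u + t * u') * c := by
    intro t u u' c
    ring
  refine ⟨s, hs, fun t ht h1 h2 h3 => ?_⟩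
  have h := hs2 t ht (by rw [e]; exact mul_ne_zero h1 hc1) (by rw [e]; exact mul_ne_zero h2 hc2)
    (by rw [e]; exact mul_ne_zero h3 hc3)
  simp only [e] at h
  rw [norm_mul, norm_mul, norm_mul,
    Real.log_mul (norm_ne_zero_iff.2 h1) (norm_ne_zero_iff.2 hc1),
    Real.log_mul (norm_ne_zero_iff.2 h2) (norm_ne_zero_iff.2 hc2),
    Real.log_mul (norm_ne_zero_iff.2 h3) (norm_ne_zero_iff.2 hc3),
    mul_div_mul_right _ _ hc1, mul_div_mul_right _ _ hc2, mul_div_mul_right _ _ hc3] at h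
  exact h

theorem five_generic (a0 a1 a2 a3 a4 : ℂ × ℂ) (h01 : dt a0 a1 ≠ 0) (h02 : dt a0 a2 ≠ 0)
    (h03 : dt a0 a3 ≠ 0) (h04 : dt a0 a4 ≠ 0) (h12 : dt a1 a2 ≠ 0) (h13 : dt a1 a3 ≠ 0)
    (h14 : dt a1 a4 ≠ 0) (h23 : dt a2 a3 ≠ 0) (h24 : dt a2 a4 ≠ 0) (h34 : dt a3 a4 ≠ 0) :
    V a1 a2 a3 a4 - V a0 a2 a3 a4 + V a0 a1 a3 a4 - V a0 a1 a2 a4 + V a0 a1 a2 a3 = 0 := by
  obtain ⟨m, hm, hmz⟩ := exists_dir ![dt a0 a2 / dt a1 a2, dt a0 a3 / dt a1 a3,
    dt a0 a4 / dt a1 a4] (by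
      intro j
      fin_cases j
      · exact div_ne_zero h02 h12
      · exact div_ne_zero h03 h13
      · exact div_ne_zero h04 h14)
  -- the moving determinants
  set x1 : ℝ → ℂ := fun t => dt a0 a1 + t * (-dt a0 a1) with hx1
  set x2 : ℝ → ℂ := fun t => dt a0 a2 + t * (m * dt a1 a2 - dt a0 a2) with hx2
  set x3 : ℝ → ℂ := fun t => dt a0 a3 + t * (m * dt a1 a3 - dt a0 a3) with hx3
  set x4 : ℝ → ℂ := fun t => dt a0 a4 + t * (m * dt a1 a4 - dt a0 a4) with hx4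
  have n2 : ∀ t ∈ Set.Icc (0 : ℝ) 1, x2 t ≠ 0 := by
    intro t ht h
    refine hmz 0 t ht.1 ht.2 ?_
    simp only [Matrix.cons_val_zero]
    have e : x2 t = ((1 - t) * (dt a0 a2 / dt a1 a2) + t * m) * dt a1 a2 := by
      simp only [hx2]
      field_simp
      ring
    rw [e] at h
    exact (mul_eq_zero.1 h).resolve_right h12
  have n3 : ∀ t ∈ Set.Icc (0 : ℝ) 1, x3 t ≠ 0 := by
    intro t ht h
    refine hmz 1 t ht.1 ht.2 ?_
    simp only [Matrix.cons_val_one, Matrix.cons_val_zero]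
    have e : x3 t = ((1 - t) * (dt a0 a3 / dt a1 a3) + t * m) * dt a1 a3 := by
      simp only [hx3]
      field_simp
      ring
    rw [e] at h
    exact (mul_eq_zero.1 h).resolve_right h13
  have n4 : ∀ t ∈ Set.Icc (0 : ℝ) 1, x4 t ≠ 0 := by
    intro t ht h
    refine hmz 2 t ht.1 ht.2 ?_
    simp only [Matrix.cons_val]
    have e : x4 t = ((1 - t) * (dt a0 a4 / dt a1 a4) + t * m) * dt a1 a4 := by
      simp only [hx4]
      field_simp
      ring
    rw [e] at h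
    exact (mul_eq_zero.1 h).resolve_right h14
  have n1 : ∀ t : ℝ, t < 1 → x1 t ≠ 0 := by
    intro t ht h
    have e : x1 t = ((1 - t : ℝ) : ℂ) * dt a0 a1 := by
      simp only [hx1]
      push_cast
      ring
    rw [e] at h
    rcases mul_eq_zero.1 h with h | h
    · rw [ofReal_eq_zero] at h
      linarith
    · exact h01 h
  have h42 : dt a4 a2 ≠ 0 := by rw [dt_swap a2 a4]; exact neg_ne_zero.2 h24
  have h41 : dt a4 a1 ≠ 0 := by rw [dt_swap a1 a4]; exact neg_ne_zero.2 h14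
  have h31 : dt a3 a1 ≠ 0 := by rw [dt_swap a1 a3]; exact neg_ne_zero.2 h13
  have l42 : Real.log ‖dt a4 a2‖ = Real.log ‖dt a2 a4‖ := by rw [dt_swap a2 a4, norm_neg]
  have l41 : Real.log ‖dt a4 a1‖ = Real.log ‖dt a1 a4‖ := by rw [dt_swap a1 a4, norm_neg]
  have l31 : Real.log ‖dt a3 a1‖ = Real.log ‖dt a1 a3‖ := by rw [dt_swap a1 a3, norm_neg]
  obtain ⟨s1, f1, d1⟩ := T_path2 (dt a0 a2) (m * dt a1 a2 - dt a0 a2) (dt a0 a3)
    (m * dt a1 a3 - dt a0 a3) (dt a0 a4) (m * dt a1 a4 - dt a0 a4) (dt a3 a4) (dt a4 a2)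
    (dt a2 a3) h34 h42 h23 (plucker a0 a2 a3 a4)
    (by linear_combination m * plucker a1 a2 a3 a4 - plucker a0 a2 a3 a4)
  obtain ⟨s2, f2, d2⟩ := T_path2 (dt a0 a1) (-dt a0 a1) (dt a0 a3)
    (m * dt a1 a3 - dt a0 a3) (dt a0 a4) (m * dt a1 a4 - dt a0 a4) (dt a3 a4) (dt a4 a1)
    (dt a1 a3) h34 h41 h13 (plucker a0 a1 a3 a4)
    (by linear_combination (m * dt a1 a3) * dt_swap a1 a4 - plucker a0 a1 a3 a4)
  obtain ⟨s3, f3, d3⟩ := T_path2 (dt a0 a1) (-dt a0 a1) (dt a0 a2)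
    (m * dt a1 a2 - dt a0 a2) (dt a0 a4) (m * dt a1 a4 - dt a0 a4) (dt a2 a4) (dt a4 a1)
    (dt a1 a2) h24 h41 h12 (plucker a0 a1 a2 a4)
    (by linear_combination (m * dt a1 a2) * dt_swap a1 a4 - plucker a0 a1 a2 a4)
  obtain ⟨s4, f4, d4⟩ := T_path2 (dt a0 a1) (-dt a0 a1) (dt a0 a2)
    (m * dt a1 a2 - dt a0 a2) (dt a0 a3) (m * dt a1 a3 - dt a0 a3) (dt a2 a3) (dt a3 a1)
    (dt a1 a2) h23 h31 h12 (plucker a0 a1 a2 a3)
    (by linear_combination (m * dt a1 a2) * dt_swap a1 a3 - plucker a0 a1 a2 a3)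
  -- the sum along the path
  set F : ℝ → ℝ := fun t => V a1 a2 a3 a4 -
    T (x2 t * dt a3 a4) (x3 t * dt a4 a2) (x4 t * dt a2 a3) +
    T (dt a0 a1 * dt a3 a4) (x3 t * dt a4 a1) (x4 t * dt a1 a3) -
    T (dt a0 a1 * dt a2 a4) (x2 t * dt a4 a1) (x4 t * dt a1 a2) +
    T (dt a0 a1 * dt a2 a3) (x2 t * dt a3 a1) (x3 t * dt a1 a2) with hF
  have hc2 : Continuous x2 := by simp only [hx2]; fun_prop
  have hc3 : Continuous x3 := by simp only [hx3]; fun_prop
  have hc4 : Continuous x4 := by simp only [hx4]; fun_prop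
  have hcont : ContinuousOn F (Set.uIcc 0 1) := by
    rw [Set.uIcc_of_le zero_le_one]
    intro t ht
    refine ContinuousAt.continuousWithinAt ?_
    have g2 := n2 t ht
    have g3 := n3 t ht
    have g4 := n4 t ht
    have c1 : ContinuousAt (fun t => T (x2 t * dt a3 a4) (x3 t * dt a4 a2) (x4 t * dt a2 a3)) t :=
      T_continuousAt (hc2.continuousAt.mul continuousAt_const)
        (hc3.continuousAt.mul continuousAt_const) (hc4.continuousAt.mul continuousAt_const)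
        (mul_ne_zero g2 h34) (mul_ne_zero g3 h42) (mul_ne_zero g4 h23)
    have c2 : ContinuousAt (fun t => T (dt a0 a1 * dt a3 a4) (x3 t * dt a4 a1)
        (x4 t * dt a1 a3)) t :=
      T_continuousAt continuousAt_const
        (hc3.continuousAt.mul continuousAt_const) (hc4.continuousAt.mul continuousAt_const)
        (mul_ne_zero h01 h34) (mul_ne_zero g3 h41) (mul_ne_zero g4 h13)
    have c3 : ContinuousAt (fun t => T (dt a0 a1 * dt a2 a4) (x2 t * dt a4 a1)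
        (x4 t * dt a1 a2)) t :=
      T_continuousAt continuousAt_const
        (hc2.continuousAt.mul continuousAt_const) (hc4.continuousAt.mul continuousAt_const)
        (mul_ne_zero h01 h24) (mul_ne_zero g2 h41) (mul_ne_zero g4 h12)
    have c4 : ContinuousAt (fun t => T (dt a0 a1 * dt a2 a3) (x2 t * dt a3 a1)
        (x3 t * dt a1 a2)) t :=
      T_continuousAt continuousAt_const
        (hc2.continuousAt.mul continuousAt_const) (hc3.continuousAt.mul continuousAt_const)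
        (mul_ne_zero h01 h23) (mul_ne_zero g2 h31) (mul_ne_zero g3 h12)
    exact (((continuousAt_const.sub c1).add c2).sub c3).add c4
  have hder : ∀ t ∈ Set.Ioo (min (0 : ℝ) 1) (max 0 1) \ (s1 ∪ s2 ∪ s3 ∪ s4),
      HasDerivAt F 0 t := by
    rintro t ⟨ht, hts⟩
    rw [min_eq_left zero_le_one, max_eq_right zero_le_one] at ht
    simp only [Set.mem_union, not_or] at hts
    obtain ⟨⟨⟨ht1, ht2⟩, ht3⟩, ht4⟩ := hts
    have htI : t ∈ Set.Icc (0 : ℝ) 1 := ⟨ht.1.le, ht.2.le⟩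
    have D1 := d1 t ht1 (n2 t htI) (n3 t htI) (n4 t htI)
    have D2 := d2 t ht2 (n1 t ht.2) (n3 t htI) (n4 t htI)
    have D3 := d3 t ht3 (n1 t ht.2) (n2 t htI) (n4 t htI)
    have D4 := d4 t ht4 (n1 t ht.2) (n2 t htI) (n3 t htI)
    have D := (((hasDerivAt_const t (V a1 a2 a3 a4)).sub D1).add D2 |>.sub D3).add D4
    have hev : F =ᶠ[𝓝 t] (fun t : ℝ => V a1 a2 a3 a4 -
        T ((dt a0 a2 + t * (m * dt a1 a2 - dt a0 a2)) * dt a3 a4)
          ((dt a0 a3 + t * (m * dt a1 a3 - dt a0 a3)) * dt a4 a2)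
          ((dt a0 a4 + t * (m * dt a1 a4 - dt a0 a4)) * dt a2 a3) +
        T ((dt a0 a1 + t * (-dt a0 a1)) * dt a3 a4)
          ((dt a0 a3 + t * (m * dt a1 a3 - dt a0 a3)) * dt a4 a1)
          ((dt a0 a4 + t * (m * dt a1 a4 - dt a0 a4)) * dt a1 a3) -
        T ((dt a0 a1 + t * (-dt a0 a1)) * dt a2 a4)
          ((dt a0 a2 + t * (m * dt a1 a2 - dt a0 a2)) * dt a4 a1)
          ((dt a0 a4 + t * (m * dt a1 a4 - dt a0 a4)) * dt a1 a2) +
        T ((dt a0 a1 + t * (-dt a0 a1)) * dt a2 a3)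
          ((dt a0 a2 + t * (m * dt a1 a2 - dt a0 a2)) * dt a3 a1)
          ((dt a0 a3 + t * (m * dt a1 a3 - dt a0 a3)) * dt a1 a2)) := by
      filter_upwards [Iio_mem_nhds ht.2] with r hr
      have hr' : (1 - r : ℝ) ≠ 0 := by
        have : r < 1 := hr
        linarith
      have e : ∀ c : ℂ, (dt a0 a1 + r * (-dt a0 a1)) * c =
          ((1 - r : ℝ) : ℂ) * (dt a0 a1 * c) := by
        intro c
        push_cast
        ring
      simp only [hF, hx2, hx3, hx4, e, T_real_left hr']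
    refine (D.congr_of_eventuallyEq hev).congr_deriv ?_
    simp only [Df, l42, l41, l31]
    ring
  have hint := MeasureTheory.integral_eq_of_hasDerivAt_off_countable F (fun _ => (0 : ℝ))
    (((f1.union f2).union f3).union f4).countable hcont hder
    (intervalIntegrable_const)
  rw [intervalIntegral.integral_zero] at hint
  have hF0 : F 0 = V a1 a2 a3 a4 - V a0 a2 a3 a4 + V a0 a1 a3 a4 - V a0 a1 a2 a4 +
      V a0 a1 a2 a3 := by
    simp only [hF, hx2, hx3, hx4, ofReal_zero, zero_mul, add_zero]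
    rfl
  have hF1 : F 1 = 0 := by
    have e2 : x2 1 = m * dt a1 a2 := by
      simp only [hx2, ofReal_one]
      ring
    have e3 : x3 1 = m * dt a1 a3 := by
      simp only [hx3, ofReal_one]
      ring
    have e4 : x4 1 = m * dt a1 a4 := by
      simp only [hx4, ofReal_one]
      ring
    have t1 : T (x2 1 * dt a3 a4) (x3 1 * dt a4 a2) (x4 1 * dt a2 a3) = V a1 a2 a3 a4 := by
      rw [e2, e3, e4, mul_assoc, mul_assoc, mul_assoc, T_smul hm]
      rfl
    have t2 : T (dt a0 a1 * dt a3 a4) (x3 1 * dt a4 a1) (x4 1 * dt a1 a3) = 0 := by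
      have : x4 1 * dt a1 a3 = -(x3 1 * dt a4 a1) := by
        rw [e3, e4, dt_swap a1 a4]
        ring
      rw [this, T_opp]
    have t3 : T (dt a0 a1 * dt a2 a4) (x2 1 * dt a4 a1) (x4 1 * dt a1 a2) = 0 := by
      have : x4 1 * dt a1 a2 = -(x2 1 * dt a4 a1) := by
        rw [e2, e4, dt_swap a1 a4]
        ring
      rw [this, T_opp]
    have t4 : T (dt a0 a1 * dt a2 a3) (x2 1 * dt a3 a1) (x3 1 * dt a1 a2) = 0 := by
      have : x3 1 * dt a1 a2 = -(x2 1 * dt a3 a1) := by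
        rw [e2, e3, dt_swap a1 a3]
        ring
      rw [this, T_opp]
    simp only [hF]
    rw [t1, t2, t3, t4]
    ring
  rw [← hF0]
  linarith

/-- THE FIVE-TERM RELATION, for all non-zero vectors -/
theorem V_five {a0 a1 a2 a3 a4 : ℂ × ℂ} (h0 : a0 ≠ 0) (h1 : a1 ≠ 0) (h2 : a2 ≠ 0)
    (h3 : a3 ≠ 0) (h4 : a4 ≠ 0) :
    V a1 a2 a3 a4 - V a0 a2 a3 a4 + V a0 a1 a3 a4 - V a0 a1 a2 a4 + V a0 a1 a2 a3 = 0 := by
  by_cases d01 : dt a0 a1 = 0
  · obtain ⟨r, hr, rfl⟩ := exists_smul_of_dt h0 h1 d01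
    rw [V_zero01 a3 a4 d01, V_zero01 a2 a4 d01, V_zero01 a2 a3 d01, V_smul0 hr]
    ring
  by_cases d02 : dt a0 a2 = 0
  · obtain ⟨r, hr, rfl⟩ := exists_smul_of_dt h0 h2 d02
    rw [V_zero01 a3 a4 d02, V_zero02 a1 a4 d02, V_zero02 a1 a3 d02, V_smul1 hr,
      V_swap01 a0 a1 a3 a4]
    ring
  by_cases d03 : dt a0 a3 = 0
  · obtain ⟨r, hr, rfl⟩ := exists_smul_of_dt h0 h3 d03
    rw [V_zero02 a2 a4 d03, V_zero02 a1 a4 d03, V_zero03 a1 a2 d03, V_smul2 hr,
      V_swap12 a1 a0 a2 a4, V_swap01 a0 a1 a2 a4]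
    ring
  by_cases d04 : dt a0 a4 = 0
  · obtain ⟨r, hr, rfl⟩ := exists_smul_of_dt h0 h4 d04
    rw [V_zero03 a2 a3 d04, V_zero03 a1 a3 d04, V_zero03 a1 a2 d04, V_smul3 hr,
      V_swap23 a1 a2 a0 a3, V_swap12 a1 a0 a2 a3, V_swap01 a0 a1 a2 a3]
    ring
  by_cases d12 : dt a1 a2 = 0
  · obtain ⟨r, hr, rfl⟩ := exists_smul_of_dt h1 h2 d12
    rw [V_zero01 a3 a4 d12, V_zero12 a0 a4 d12, V_zero12 a0 a3 d12, V_smul1 hr]
    ring
  by_cases d13 : dt a1 a3 = 0
  · obtain ⟨r, hr, rfl⟩ := exists_smul_of_dt h1 h3 d13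
    rw [V_zero02 a2 a4 d13, V_zero12 a0 a4 d13, V_zero13 a0 a2 d13, V_smul2 hr,
      V_swap12 a0 a1 a2 a4]
    ring
  by_cases d14 : dt a1 a4 = 0
  · obtain ⟨r, hr, rfl⟩ := exists_smul_of_dt h1 h4 d14
    rw [V_zero03 a2 a3 d14, V_zero13 a0 a3 d14, V_zero13 a0 a2 d14, V_smul3 hr,
      V_swap23 a0 a2 a1 a3, V_swap12 a0 a1 a2 a3]
    ring
  by_cases d23 : dt a2 a3 = 0
  · obtain ⟨r, hr, rfl⟩ := exists_smul_of_dt h2 h3 d23
    rw [V_zero12 a1 a4 d23, V_zero12 a0 a4 d23, V_zero23 a0 a1 d23, V_smul2 hr]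
    ring
  by_cases d24 : dt a2 a4 = 0
  · obtain ⟨r, hr, rfl⟩ := exists_smul_of_dt h2 h4 d24
    rw [V_zero13 a1 a3 d24, V_zero13 a0 a3 d24, V_zero23 a0 a1 d24, V_smul3 hr,
      V_swap23 a0 a1 a2 a3]
    ring
  by_cases d34 : dt a3 a4 = 0
  · obtain ⟨r, hr, rfl⟩ := exists_smul_of_dt h3 h4 d34
    rw [V_zero23 a1 a2 d34, V_zero23 a0 a2 d34, V_zero23 a0 a1 d34, V_smul3 hr]
    ring
  exact five_generic a0 a1 a2 a3 a4 d01 d02 d03 d04 d12 d13 d14 d23 d24 d34

end Pool.Agent.Helper68.BW
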