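import Pool.Agent.Helper68.BW.Clausen

/-! # The volume of the ideal simplex belonging to a triangle, and its derivative -/

set_option autoImplicit false

open Complex Filter Topology ComplexConjugate

namespace Pool.Agent.Helper68.BW

/-- the volume of the ideal simplex with the triangle with sides `P`, `Q`, `R`,
`P + Q + R = 0` -/
noncomputable def T (P Q R : ℂ) : ℝ := (L (P / Q) + L (Q / R) + L (R / P)) / 2

theorem T_abs_le (P Q R : ℂ) : |T P Q R| ≤ 3 := by
  have h1 := abs_le.1 (L_abs_le (P / Q))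
  have h2 := abs_le.1 (L_abs_le (Q / R))
  have h3 := abs_le.1 (L_abs_le (R / P))
  rw [T, abs_le]
  constructor <;> linarith [h1.1, h1.2, h2.1, h2.2, h3.1, h3.2]

theorem T_smul {c : ℂ} (hc : c ≠ 0) (P Q R : ℂ) : T (c * P) (c * Q) (c * R) = T P Q R := by
  rw [T, T, mul_div_mul_left _ _ hc, mul_div_mul_left _ _ hc, mul_div_mul_left _ _ hc]

theorem T_cyc (P Q R : ℂ) : T Q R P = T P Q R := by
  rw [T, T]
  ring

theorem T_conj (P Q R : ℂ) : T (conj P) (conj Q) (conj R) = -T P Q R := by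
  rw [T, T, ← map_div₀, ← map_div₀, ← map_div₀, L_conj, L_conj, L_conj]
  ring

theorem T_swap (P Q R : ℂ) : T (-P) (-R) (-Q) = -T P Q R := by
  rw [T, T, neg_div_neg_eq, neg_div_neg_eq, neg_div_neg_eq]
  have h1 : P / R = (R / P)⁻¹ := (inv_div _ _).symm
  have h2 : R / Q = (Q / R)⁻¹ := (inv_div _ _).symm
  have h3 : Q / P = (P / Q)⁻¹ := (inv_div _ _).symm
  rw [h1, h2, h3, L_inv, L_inv, L_inv]
  ring

theorem T_real_left {r : ℝ} (hr : r ≠ 0) (P Q R : ℂ) : T (r * P) Q R = T P Q R := by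
  rw [T, T, mul_div_assoc, L_real_mul hr]
  have h : R / (r * P) = ((r⁻¹ : ℝ) : ℂ) * (R / P) := by
    push_cast
    rw [div_mul_eq_div_div_swap, div_eq_inv_mul]
  rw [h, L_real_mul (inv_ne_zero hr)]

/-- the two other sides are opposite -/
theorem T_opp (P Q : ℂ) : T P Q (-Q) = 0 := by
  have h2 : L (Q / -Q) = 0 := by
    rcases eq_or_ne Q 0 with h | h
    · rw [h, zero_div, L_zero]
    · rw [div_neg, div_self h, L_neg, L_one]
  have h3 : L (-Q / P) = -L (P / Q) := by
    rw [neg_div, L_neg, ← L_inv, inv_div]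
  rw [T, h2, h3]
  ring

theorem T_zero1 {P Q R : ℂ} (h : P + Q + R = 0) (hP : P = 0) : T P Q R = 0 := by
  have : R = -Q := by linear_combination h - hP
  rw [this, T_opp]

theorem T_zero2 {P Q R : ℂ} (h : P + Q + R = 0) (hQ : Q = 0) : T P Q R = 0 := by
  rw [← T_cyc]
  exact T_zero1 (by linear_combination h) hQ

theorem T_zero3 {P Q R : ℂ} (h : P + Q + R = 0) (hR : R = 0) : T P Q R = 0 := by
  rw [← T_cyc, ← T_cyc]
  exact T_zero1 (by linear_combination h) hR

theorem im_div_eq {P Q : ℂ} (hQ : Q ≠ 0) : (P / Q).im = (P * conj Q).im / ‖Q‖ ^ 2 := by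
  have h : P / Q = P * conj Q / ((‖Q‖ ^ 2 : ℝ) : ℂ) := by
    have h1 : Q * conj Q = ((‖Q‖ ^ 2 : ℝ) : ℂ) := by
      rw [mul_conj, normSq_eq_norm_sq]
    rw [← h1]
    have h2 : conj Q ≠ 0 := (map_ne_zero _).2 hQ
    rw [mul_div_mul_right _ _ h2]
  rw [h, div_ofReal_im]

theorem T_collinear {P Q R : ℂ} (h : P + Q + R = 0) (him : (P * conj Q).im = 0) :
    T P Q R = 0 := by
  rcases eq_or_ne P 0 with hP | hP
  · exact T_zero1 h hP
  rcases eq_or_ne Q 0 with hQ | hQ
  · exact T_zero2 h hQ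
  rcases eq_or_ne R 0 with hR | hR
  · exact T_zero3 h hR
  have hreal : ∀ {z : ℂ}, z.im = 0 → L z = 0 := by
    intro z hz
    have : z = ((z.re : ℝ) : ℂ) := Complex.ext (by simp) (by simp [hz])
    rw [this, L_of_real]
  have e1 : (Q * conj R).im = 0 := by
    have hR' : R = -P - Q := by linear_combination h
    have h2 : Q * conj R = -(conj (P * conj Q)) - Q * conj Q := by
      rw [hR', map_sub, map_neg, map_mul, conj_conj]
      ring
    rw [h2, sub_im, neg_im, conj_im, him, mul_conj, ofReal_im]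
    ring
  have e2 : (R * conj P).im = 0 := by
    have hR' : R = -P - Q := by linear_combination h
    have h2 : R * conj P = -(conj (P * conj Q)) - P * conj P := by
      rw [hR', map_mul, conj_conj]
      ring
    rw [h2, sub_im, neg_im, conj_im, him, mul_conj, ofReal_im]
    ring
  have d1 : (P / Q).im = 0 := by rw [im_div_eq hQ, him, zero_div]
  have d2 : (Q / R).im = 0 := by rw [im_div_eq hR, e1, zero_div]
  have d3 : (R / P).im = 0 := by rw [im_div_eq hP, e2, zero_div]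
  rw [T, hreal d1, hreal d2, hreal d3]
  ring

/-- the derivative in terms of logarithms of lengths and of angular velocities -/
def Df (lp lq lr fp fq fr : ℝ) : ℝ :=
  -(lr * (fp - fq) + lp * (fq - fr) + lq * (fr - fp))

theorem log_one_sub {P Q : ℂ} (hP : P ≠ 0) (hQ : Q ≠ 0) (him : (P * conj Q).im ≠ 0) :
    Real.log ‖1 - (P / Q) / conj (P / Q)‖ =
      Real.log (2 * |(P * conj Q).im|) - Real.log ‖P‖ - Real.log ‖Q‖ := by
  have h0 : P / Q ≠ 0 := div_ne_zero hP hQ
  have h1 : conj (P / Q) ≠ 0 := (map_ne_zero _).2 h0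
  have h2 : 1 - (P / Q) / conj (P / Q) = -(2 * (P / Q).im * I) / conj (P / Q) := by
    have h3 : P / Q - conj (P / Q) = (2 * (P / Q).im : ℝ) * I := sub_conj _
    push_cast at h3
    rw [← h3]
    field_simp
    ring
  rw [h2, norm_div, norm_neg, norm_mul, norm_mul, norm_I, norm_conj, mul_one, norm_div,
    norm_real, im_div_eq hQ, Real.norm_eq_abs, abs_div, abs_of_nonneg (sq_nonneg ‖Q‖)]
  have hPn : ‖P‖ ≠ 0 := norm_ne_zero_iff.2 hP
  have hQn : ‖Q‖ ≠ 0 := norm_ne_zero_iff.2 hQ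
  have ha : |(P * conj Q).im| ≠ 0 := abs_ne_zero.2 him
  have h4 : ‖(2 : ℂ)‖ * (|(P * conj Q).im| / ‖Q‖ ^ 2) / (‖P‖ / ‖Q‖) =
      2 * |(P * conj Q).im| / (‖P‖ * ‖Q‖) := by
    rw [Complex.norm_ofNat]
    field_simp
  rw [h4, Real.log_div (by positivity) (by positivity), Real.log_mul hPn hQn]
  ring

theorem L_quot_hasDerivAt {P Q : ℝ → ℂ} {P' Q' : ℂ} {t : ℝ} (hP : HasDerivAt P P' t)
    (hQ : HasDerivAt Q Q' t) (hP0 : P t ≠ 0) (hQ0 : Q t ≠ 0)
    (him : (P t * conj (Q t)).im ≠ 0) :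
    HasDerivAt (fun s => L (P s / Q s))
      (-2 * (Real.log (2 * |(P t * conj (Q t)).im|) - Real.log ‖P t‖ - Real.log ‖Q t‖) *
        ((P' / P t).im - (Q' / Q t).im)) t := by
  have h1 : HasDerivAt (fun s => P s / Q s) ((P' * Q t - P t * Q') / Q t ^ 2) t :=
    hP.div hQ hQ0
  have h2 : P t / Q t ≠ conj (P t / Q t) := by
    intro h
    have h3 : (P t / Q t).im = 0 := by
      have h4 := congrArg Complex.im h
      rw [conj_im] at h4
      linarith
    rw [im_div_eq hQ0, div_eq_zero_iff] at h3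
    rcases h3 with h3 | h3
    · exact him h3
    · exact hQ0 (norm_eq_zero.1 (pow_eq_zero_iff (two_ne_zero) |>.1 h3))
  have h5 := L_hasDerivAt h1 h2
  rw [log_one_sub hP0 hQ0 him] at h5
  have h6 : (P' * Q t - P t * Q') / Q t ^ 2 / (P t / Q t) = P' / P t - Q' / Q t := by
    field_simp
  rw [h6, sub_im] at h5
  exact h5

theorem T_hasDerivAt {P Q R : ℝ → ℂ} {P' Q' R' : ℂ} {t : ℝ} (hP : HasDerivAt P P' t)
    (hQ : HasDerivAt Q Q' t) (hR : HasDerivAt R R' t) (h : P t + Q t + R t = 0)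
    (hP0 : P t ≠ 0) (hQ0 : Q t ≠ 0) (hR0 : R t ≠ 0) (him : (P t * conj (Q t)).im ≠ 0) :
    HasDerivAt (fun s => T (P s) (Q s) (R s))
      (Df (Real.log ‖P t‖) (Real.log ‖Q t‖) (Real.log ‖R t‖) (P' / P t).im (Q' / Q t).im
        (R' / R t).im) t := by
  have e1 : (Q t * conj (R t)).im = (P t * conj (Q t)).im := by
    have hR' : R t = -P t - Q t := by linear_combination h
    have h2 : Q t * conj (R t) = -(conj (P t * conj (Q t))) - Q t * conj (Q t) := by
      rw [hR', map_sub, map_neg, map_mul, conj_conj]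
      ring
    rw [h2, sub_im, neg_im, conj_im, mul_conj, ofReal_im]
    ring
  have e2 : (R t * conj (P t)).im = (P t * conj (Q t)).im := by
    have hR' : R t = -P t - Q t := by linear_combination h
    have h2 : R t * conj (P t) = -(conj (P t * conj (Q t))) - P t * conj (P t) := by
      rw [hR', map_mul, conj_conj]
      ring
    rw [h2, sub_im, neg_im, conj_im, mul_conj, ofReal_im]
    ring
  have h1 := L_quot_hasDerivAt hP hQ hP0 hQ0 him
  have h2 := L_quot_hasDerivAt hQ hR hQ0 hR0 (by rw [e1]; exact him)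
  have h3 := L_quot_hasDerivAt hR hP hR0 hP0 (by rw [e2]; exact him)
  rw [e1] at h2
  rw [e2] at h3
  have h4 := ((h1.add h2).add h3).div_const 2
  have h5 : Df (Real.log ‖P t‖) (Real.log ‖Q t‖) (Real.log ‖R t‖) (P' / P t).im (Q' / Q t).im
        (R' / R t).im = (-2 * (Real.log (2 * |(P t * conj (Q t)).im|) - Real.log ‖P t‖ -
          Real.log ‖Q t‖) * ((P' / P t).im - (Q' / Q t).im) +
        -2 * (Real.log (2 * |(P t * conj (Q t)).im|) - Real.log ‖Q t‖ -
          Real.log ‖R t‖) * ((Q' / Q t).im - (R' / R t).im) +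
        -2 * (Real.log (2 * |(P t * conj (Q t)).im|) - Real.log ‖R t‖ -
          Real.log ‖P t‖) * ((R' / R t).im - (P' / P t).im)) / 2 := by
    rw [Df]
    ring
  rw [h5]
  exact h4

theorem im_quot_eq_of_real {P Q : ℝ → ℂ} {P' Q' : ℂ} {t : ℝ} (hP : HasDerivAt P P' t)
    (hQ : HasDerivAt Q Q' t) (hP0 : P t ≠ 0) (hQ0 : Q t ≠ 0)
    (him : ∀ s, (P s * conj (Q s)).im = 0) : (P' / P t).im = (Q' / Q t).im := by
  have h1 : HasDerivAt (fun s => P s / Q s) ((P' * Q t - P t * Q') / Q t ^ 2) t :=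
    hP.div hQ hQ0
  have h2 : HasDerivAt (fun s => (P s / Q s).im) (((P' * Q t - P t * Q') / Q t ^ 2).im) t :=
    imCLM.hasFDerivAt.comp_hasDerivAt t h1
  have h3 : ∀ s, (P s / Q s).im = 0 := by
    intro s
    rcases eq_or_ne (Q s) 0 with h | h
    · rw [h, div_zero, zero_im]
    · rw [im_div_eq h, him, zero_div]
  simp only [h3] at h2
  have h4 : ((P' * Q t - P t * Q') / Q t ^ 2).im = 0 := h2.unique (hasDerivAt_const t 0)
  have h5 : (P' / P t - Q' / Q t) = ((P' * Q t - P t * Q') / Q t ^ 2) / (P t / Q t) := by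
    field_simp
  have h6 : (P' / P t - Q' / Q t).im = 0 := by
    rw [h5]
    have h7 : P t / Q t = (((P t / Q t).re : ℝ) : ℂ) := Complex.ext (by simp) (by simp [h3 t])
    rw [h7, div_ofReal_im, h4, zero_div]
  rw [sub_im] at h6
  linarith

theorem quad_finite (c0 c1 c2 : ℝ) :
    (∀ t : ℝ, c0 + c1 * t + c2 * t ^ 2 = 0) ∨ {t : ℝ | c0 + c1 * t + c2 * t ^ 2 = 0}.Finite := by
  set p : Polynomial ℝ := Polynomial.C c0 + Polynomial.C c1 * Polynomial.X +
    Polynomial.C c2 * Polynomial.X ^ 2 with hp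
  have he : ∀ t : ℝ, p.eval t = c0 + c1 * t + c2 * t ^ 2 := by
    intro t
    simp [hp]
  by_cases h : p = 0
  · left
    intro t
    rw [← he, h, Polynomial.eval_zero]
  · right
    have h1 := Polynomial.finite_setOfPred_isRoot h
    refine h1.subset fun t ht => ?_
    change p.eval t = 0
    rw [he]
    exact ht

/-- the derivative formula holds outside a finite set of times if `P`, `Q`, `R` are affine in
the time -/
theorem T_path (p0 p1 q0 q1 r0 r1 : ℂ) (h0 : p0 + q0 + r0 = 0) (h1 : p1 + q1 + r1 = 0) :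
    ∃ s : Set ℝ, s.Finite ∧ ∀ t ∉ s, p0 + t * p1 ≠ 0 → q0 + t * q1 ≠ 0 → r0 + t * r1 ≠ 0 →
      HasDerivAt (fun t : ℝ => T (p0 + t * p1) (q0 + t * q1) (r0 + t * r1))
        (Df (Real.log ‖p0 + t * p1‖) (Real.log ‖q0 + t * q1‖) (Real.log ‖r0 + t * r1‖)
          (p1 / (p0 + t * p1)).im (q1 / (q0 + t * q1)).im (r1 / (r0 + t * r1)).im) t := by
  have hd : ∀ (a b : ℂ) (t : ℝ), HasDerivAt (fun t : ℝ => a + t * b) b t := by
    intro a b t
    have h2 : HasDerivAt (fun t : ℝ => (t : ℂ)) 1 t := (hasDerivAt_id t).ofReal_comp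
    simpa using (h2.mul_const b).const_add a
  have hsum : ∀ t : ℝ, (p0 + t * p1) + (q0 + t * q1) + (r0 + t * r1) = 0 := by
    intro t
    linear_combination h0 + t * h1
  have hquad : ∀ t : ℝ, ((p0 + t * p1) * conj (q0 + t * q1)).im =
      (p0 * conj q0).im + ((p0 * conj q1).im + (p1 * conj q0).im) * t +
        (p1 * conj q1).im * t ^ 2 := by
    intro t
    rw [map_add, map_mul, conj_ofReal]
    have : (p0 + t * p1) * (conj q0 + t * conj q1) = p0 * conj q0 +
        (t : ℂ) * (p0 * conj q1 + p1 * conj q0) + ((t ^ 2 : ℝ) : ℂ) * (p1 * conj q1) := by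
      push_cast
      ring
    rw [this, add_im, add_im, im_ofReal_mul, im_ofReal_mul, add_im]
    ring
  rcases quad_finite (p0 * conj q0).im ((p0 * conj q1).im + (p1 * conj q0).im)
    (p1 * conj q1).im with hz | hf
  · refine ⟨∅, Set.finite_empty, fun t _ hP hQ hR => ?_⟩
    have him : ∀ s : ℝ, ((p0 + s * p1) * conj (q0 + s * q1)).im = 0 := by
      intro s
      rw [hquad, hz]
    have hconst : (fun t : ℝ => T (p0 + t * p1) (q0 + t * q1) (r0 + t * r1)) = fun _ => 0 := by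
      funext s
      exact T_collinear (hsum s) (him s)
    have him2 : ∀ s : ℝ, ((q0 + s * q1) * conj (r0 + s * r1)).im = 0 := by
      intro s
      have hR' : r0 + s * r1 = -(p0 + s * p1) - (q0 + s * q1) := by
        linear_combination hsum s
      have h2 : (q0 + s * q1) * conj (r0 + s * r1) =
          -(conj ((p0 + s * p1) * conj (q0 + s * q1))) -
            (q0 + s * q1) * conj (q0 + s * q1) := by
        rw [hR', map_sub, map_neg, map_mul, conj_conj]
        ring
      rw [h2, sub_im, neg_im, conj_im, him, mul_conj, ofReal_im]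
      ring
    have e1 := im_quot_eq_of_real (hd p0 p1 t) (hd q0 q1 t) hP hQ him
    have e2 := im_quot_eq_of_real (hd q0 q1 t) (hd r0 r1 t) hQ hR him2
    rw [hconst]
    have e3 : Df (Real.log ‖p0 + t * p1‖) (Real.log ‖q0 + t * q1‖) (Real.log ‖r0 + t * r1‖)
        (p1 / (p0 + t * p1)).im (q1 / (q0 + t * q1)).im (r1 / (r0 + t * r1)).im = 0 := by
      rw [Df, e1, e2]
      ring
    rw [e3]
    exact hasDerivAt_const t 0
  · refine ⟨_, hf, fun t ht hP hQ hR => ?_⟩
    refine T_hasDerivAt (hd p0 p1 t) (hd q0 q1 t) (hd r0 r1 t) (hsum t) hP hQ hR ?_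
    rw [hquad]
    exact ht

end Pool.Agent.Helper68.BW
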